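import Pool.Agent.H525.ISO.Small

set_option autoImplicit false
set_option linter.unusedSectionVars false

/-! # The degenerate points -/

namespace Pool.Agent.H525.ISO

open Finset NumberField Filter
open Pool.Agent.H525.NF

open scoped Classical

variable {K : Type} [Field K] [NumberField K] {ι : Type} [Fintype ι]

theorem exists_sep (α : ι → 𝓞 K) (hspan : ∀ t : 𝓞 K, ∃ x, th α x = t) (σ τ : K →ₐ[ℚ] ℂ)
    (h : σ ≠ τ) : ∃ j, σ (α j : K) ≠ τ (α j : K) := by
  by_contra hcon
  push Not at hcon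
  apply h
  have h1 : (σ : K →+* ℂ).comp (algebraMap (𝓞 K) K) = (τ : K →+* ℂ).comp (algebraMap (𝓞 K) K) := by
    ext t
    obtain ⟨x, rfl⟩ := hspan t
    have h2 : ∀ ρ : K →ₐ[ℚ] ℂ, ρ ((th α x : 𝓞 K) : K) = ∑ i, (x i : ℂ) * ρ (α i : K) := by
      intro ρ
      rw [th_apply]
      simp
    have h3 := h2 σ
    have h4 := h2 τ
    simp only [RingHom.comp_apply]
    change σ ((th α x : 𝓞 K) : K) = τ ((th α x : 𝓞 K) : K)
    rw [h3, h4]
    apply Finset.sum_congr rfl
    intro i _
    rw [hcon i]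
  have h5 := IsLocalization.ringHom_ext (nonZeroDivisors (𝓞 K)) h1
  ext x
  exact RingHom.congr_fun h5 x

theorem deg_card (α : ι → 𝓞 K) (hspan : ∀ t : 𝓞 K, ∃ x, th α x = t)
    (hc : Fintype.card ι = Module.finrank ℚ K) (R : ℕ) (S : Finset (ι → ℤ))
    (hS : ∀ w ∈ S, ∀ i, |w i| ≤ R)
    (hS2 : ∀ w ∈ S, ∃ σ τ : K →ₐ[ℚ] ℂ, σ ≠ τ ∧ σ ((th α w : 𝓞 K) : K) = τ ((th α w : 𝓞 K) : K)) :
    (S.card : ℝ) ≤ (Fintype.card ι : ℝ) ^ 2 * (((2 * R + 1 : ℕ) : ℝ)) ^ (Fintype.card ι - 1) := by
  set P : Finset ((K →ₐ[ℚ] ℂ) × (K →ₐ[ℚ] ℂ)) := Finset.univ.filter (fun q => q.1 ≠ q.2) with hP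
  have hsub : S ⊆ P.biUnion (fun q => S.filter (fun w =>
      q.1 ((th α w : 𝓞 K) : K) = q.2 ((th α w : 𝓞 K) : K))) := by
    intro w hw
    obtain ⟨σ, τ, h1, h2⟩ := hS2 w hw
    rw [Finset.mem_biUnion]
    exact ⟨(σ, τ), Finset.mem_filter.2 ⟨mem_univ _, h1⟩, Finset.mem_filter.2 ⟨hw, h2⟩⟩
  have h1 : ∀ q ∈ P, (S.filter (fun w =>
      q.1 ((th α w : 𝓞 K) : K) = q.2 ((th α w : 𝓞 K) : K))).card ≤
        (2 * R + 1) ^ (Fintype.card ι - 1) := by
    intro q hq
    rw [hP, Finset.mem_filter] at hq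
    obtain ⟨j, hj⟩ := exists_sep α hspan q.1 q.2 hq.2
    have h2 := slab (fun _ => -(R:ℤ)) (2 * R + 1) 0 j (S.filter (fun w =>
      q.1 ((th α w : 𝓞 K) : K) = q.2 ((th α w : 𝓞 K) : K))) (by
        intro w hw
        rw [mem_filter] at hw
        rw [mem_Box]
        intro i
        have := hS w hw.1 i
        rw [abs_le] at this
        push_cast
        omega) (by
        intro w hw w' hw' hww
        rw [mem_filter] at hw hw'
        have h3 : th α w - th α w' = (w j - w' j) • α j := by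
          rw [th_apply, th_apply, ← Finset.sum_sub_distrib]
          rw [Finset.sum_eq_single j]
          · rw [sub_smul]
          · intro i _ hi
            rw [hww i hi, sub_self]
          · intro h; exact absurd (mem_univ j) h
        have h4 : ∀ ρ : K →ₐ[ℚ] ℂ, ρ ((th α w : 𝓞 K) : K) - ρ ((th α w' : 𝓞 K) : K) =
            ((w j - w' j : ℤ) : ℂ) * ρ (α j : K) := by
          intro ρ
          rw [← map_sub]
          have h5 : ((th α w : 𝓞 K) : K) - ((th α w' : 𝓞 K) : K) =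
              (((w j - w' j) • α j : 𝓞 K) : K) := by
            rw [← h3]
            push_cast
            ring
          rw [h5]
          simp
        have h6 := h4 q.1
        have h7 := h4 q.2
        rw [hw.2, hw'.2, h7] at h6
        have h8 : ((w j - w' j : ℤ) : ℂ) * (q.1 (α j : K) - q.2 (α j : K)) = 0 := by
          rw [mul_sub, ← h6, sub_self]
        rcases mul_eq_zero.1 h8 with h9 | h9
        · have h10 : w j - w' j = 0 := by exact_mod_cast h9
          rw [h10]
          simp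
        · exact absurd (sub_eq_zero.1 h9) hj)
    rw [zero_add, one_mul] at h2
    exact h2
  have h2 := (Finset.card_le_card hsub).trans Finset.card_biUnion_le
  have h3 := h2.trans (Finset.sum_le_card_nsmul _ _ _ h1)
  have h4 : P.card ≤ (Fintype.card ι) ^ 2 := by
    refine (Finset.card_le_univ _).trans ?_
    rw [Fintype.card_prod, card_emb, hc, pow_two]
  rw [smul_eq_mul] at h3
  have h5 := h3.trans (Nat.mul_le_mul_right _ h4)
  exact_mod_cast h5

end Pool.Agent.H525.ISO
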