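import Mathlib

set_option autoImplicit false
set_option linter.unusedSectionVars false

/-! # Numerical facts -/

namespace Pool.Agent.H525.ISO

theorem numer (dn : ℕ) (hdn : 1 ≤ dn) (c₂ C₁ Ce c₁ K₁ : ℝ) (hc₂ : 0 < c₂) (hc₂1 : c₂ ≤ 1)
    (hC₁ : 1 ≤ C₁) (hCe : 0 ≤ Ce) (hc₁ : 0 < c₁) (hK₁ : 0 ≤ K₁) : ∃ BB : ℝ, 1 ≤ BB ∧
    ∀ Y l1 l2 l3 : ℝ, 3 ≤ Y → l1 = Real.log Y → BB ≤ l3 → l3 ≤ l2 → BB * l2 ^ 2 ≤ l1 →
    ∃ R : ℕ, (R : ℝ) ^ dn ≤ c₂ * (Y * l1 * l3 / l2 ^ 2) ∧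
      (∀ r : ℝ, 0 ≤ r → r ^ dn ≤ c₂ / 4 ^ dn * (Y * l1 * l3 / l2 ^ 2) → r + Ce ≤ R) ∧
      Y ≤ (R : ℝ) ^ dn ∧ (R : ℝ) ^ dn * l2 ≤ Y * l1 ∧
      (dn : ℝ) ^ 2 * (((2 * R + 1 : ℕ) : ℝ)) ^ (dn - 1) ≤ c₁ / 8 * (Y / l1) ∧
      Ce ≤ R ∧ 1 ≤ R ∧ Real.log (2 * C₁ * R) ≤ (Real.log (2 * C₁) + 2) * l1 ∧
      K₁ ≤ c₁ / 4 * (Y / l1) := by
  set Cd : ℝ := 8 * (dn : ℝ) ^ 2 * 3 ^ dn / c₁ with hCd
  have hd1 : (1:ℝ) ≤ dn := by exact_mod_cast hdn
  have hd0 : (0:ℝ) < dn := by linarith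
  have hCd0 : 0 < Cd := by positivity
  refine ⟨max (max (2 ^ dn / c₂ + 1) (4 * (Ce + 1) * dn)) (max (12 * (2 * Cd) * (dn : ℝ) ^ 3 + 4)
    (8 * K₁ / c₁ + 1)), ?_, ?_⟩
  · refine le_trans ?_ ((le_max_left _ _).trans (le_max_left _ _))
    have : 0 < (2:ℝ) ^ dn / c₂ := by positivity
    linarith
  intro Y l1 l2 l3 hY hl1 hBl3 hl32 hBl1
  set BB := max (max (2 ^ dn / c₂ + 1) (4 * (Ce + 1) * dn)) (max (12 * (2 * Cd) * (dn : ℝ) ^ 3 + 4)
    (8 * K₁ / c₁ + 1)) with hBB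
  have b1 : 2 ^ dn / c₂ + 1 ≤ BB := (le_max_left _ _).trans (le_max_left _ _)
  have b2 : 4 * (Ce + 1) * dn ≤ BB := (le_max_right _ _).trans (le_max_left _ _)
  have b3 : 12 * (2 * Cd) * (dn : ℝ) ^ 3 + 4 ≤ BB := (le_max_left _ _).trans (le_max_right _ _)
  have b4 : 8 * K₁ / c₁ + 1 ≤ BB := (le_max_right _ _).trans (le_max_right _ _)
  have hBB1 : 1 ≤ BB := by
    have : 0 < (2:ℝ) ^ dn / c₂ := by positivity
    linarith
  have hBB4 : 4 ≤ BB := by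
    have : 0 ≤ 12 * (2 * Cd) * (dn : ℝ) ^ 3 := by positivity
    linarith
  have h1l3 : 1 ≤ l3 := by linarith
  have h1l2 : 1 ≤ l2 := by linarith
  have hl20 : 0 < l2 := by linarith
  have hl30 : 0 < l3 := by linarith
  have hl2sq : 1 ≤ l2 ^ 2 := one_le_pow₀ h1l2
  have hBBl1 : BB ≤ l1 := by nlinarith only [hBl1, hl2sq, hBB1]
  have hl10 : 0 < l1 := by linarith
  have h1l1 : 1 ≤ l1 := by linarith
  have hY0 : 0 < Y := by linarith
  have hYexp : Y = Real.exp l1 := by rw [hl1, Real.exp_log hY0]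
  set F : ℝ := c₂ * (Y * l1 * l3 / l2 ^ 2) with hF
  have hq : BB ≤ l1 * l3 / l2 ^ 2 := by
    rw [le_div_iff₀ (by positivity)]
    calc BB * l2 ^ 2 ≤ l1 * 1 := by linarith
      _ ≤ l1 * l3 := mul_le_mul_of_nonneg_left h1l3 hl10.le
  have hFY : 2 ^ dn * Y ≤ F := by
    have h1 : F = c₂ * (l1 * l3 / l2 ^ 2) * Y := by rw [hF]; ring
    rw [h1]
    apply mul_le_mul_of_nonneg_right _ hY0.le
    have h2 : 2 ^ dn / c₂ ≤ l1 * l3 / l2 ^ 2 := by linarith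
    rwa [div_le_iff₀ hc₂, mul_comm] at h2
  have hF0 : 0 < F := lt_of_lt_of_le (by positivity) hFY
  set r : ℝ := F ^ (1 / (dn : ℝ)) with hr
  have hr0 : 0 < r := Real.rpow_pos_of_pos hF0 _
  have hrF : r ^ dn = F := by
    rw [hr, ← Real.rpow_natCast, ← Real.rpow_mul hF0.le, one_div, inv_mul_cancel₀ hd0.ne',
      Real.rpow_one]
  -- lower bound for `r`
  have hrexp : Real.exp (l1 / dn) ≤ r := by
    have h1 : Real.exp (l1 / dn) ^ dn ≤ r ^ dn := by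
      rw [← Real.exp_nat_mul, hrF]
      have h2 : (dn : ℝ) * (l1 / dn) = l1 := by field_simp
      rw [h2, ← hYexp]
      have h3 : (1:ℝ) ≤ 2 ^ dn := one_le_pow₀ (by norm_num)
      calc Y = 1 * Y := (one_mul _).symm
        _ ≤ 2 ^ dn * Y := mul_le_mul_of_nonneg_right h3 hY0.le
        _ ≤ F := hFY
    exact le_of_pow_le_pow_left₀ (by omega) hr0.le h1
  have hrl1 : l1 / dn + 1 ≤ r := (Real.add_one_le_exp _).trans hrexp
  have hrCe : 4 * (Ce + 1) ≤ r := by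
    have h1 : 4 * (Ce + 1) ≤ l1 / dn := by
      rw [le_div_iff₀ hd0]
      linarith
    linarith
  have hrl12 : 2 * Cd * l1 ^ 2 ≤ r := by
    refine le_trans ?_ hrexp
    have h1 := Real.pow_div_factorial_le_exp (l1 / dn) (by positivity) 3
    refine le_trans ?_ h1
    have h2 : ((Nat.factorial 3 : ℕ) : ℝ) = 6 := by norm_num [Nat.factorial]
    rw [h2, le_div_iff₀ (by norm_num), div_pow, le_div_iff₀ (by positivity)]
    have h3 : 12 * (2 * Cd) * (dn : ℝ) ^ 3 ≤ l1 := by linarith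
    have h4 : 0 ≤ l1 ^ 2 := sq_nonneg _
    nlinarith only [h3, h4, hl10]
  set R : ℕ := ⌊r⌋₊ with hR
  have hRr : (R : ℝ) ≤ r := Nat.floor_le hr0.le
  have hRr1 : r - 1 ≤ R := by
    have := Nat.lt_floor_add_one r
    rw [← hR] at this
    linarith
  have hRr2 : r / 2 ≤ R := by linarith
  have hR1 : (1:ℝ) ≤ R := by linarith
  have hR0 : (0:ℝ) < R := by linarith
  have hRF : (R : ℝ) ^ dn ≤ F := by
    rw [← hrF]
    exact pow_le_pow_left₀ hR0.le hRr _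
  have hRl2 : (R : ℝ) ^ dn * l2 ≤ Y * l1 := by
    refine (mul_le_mul_of_nonneg_right hRF hl20.le).trans ?_
    have h1 : F * l2 = (c₂ * (l3 / l2)) * (Y * l1) := by rw [hF]; field_simp
    rw [h1]
    have h2 : l3 / l2 ≤ 1 := by rw [div_le_one hl20]; exact hl32
    have h3 : c₂ * (l3 / l2) ≤ 1 := by
      calc c₂ * (l3 / l2) ≤ 1 * 1 := mul_le_mul hc₂1 h2 (by positivity) (by norm_num)
        _ = 1 := by norm_num
    calc (c₂ * (l3 / l2)) * (Y * l1) ≤ 1 * (Y * l1) :=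
          mul_le_mul_of_nonneg_right h3 (by positivity)
      _ = _ := one_mul _
  have hRYl1 : (R : ℝ) ^ dn ≤ Y * l1 := by
    refine le_trans ?_ hRl2
    calc (R : ℝ) ^ dn = (R : ℝ) ^ dn * 1 := (mul_one _).symm
      _ ≤ _ := mul_le_mul_of_nonneg_left h1l2 (by positivity)
  have hexpl1 : l1 ^ 2 / 2 ≤ Y := by
    rw [hYexp]
    have h1 := Real.pow_div_factorial_le_exp l1 hl10.le 2
    simpa [Nat.factorial] using h1
  refine ⟨R, hRF, ?_, ?_, hRl2, ?_, by linarith, by exact_mod_cast hR1, ?_, ?_⟩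
  · intro s hs hsF
    have h1 : s ≤ r / 4 := by
      have h2 : s ^ dn ≤ (r / 4) ^ dn := by
        rw [div_pow, hrF]
        refine hsF.trans (le_of_eq ?_)
        rw [hF]
        ring
      exact le_of_pow_le_pow_left₀ (by omega) (by positivity) h2
    linarith
  · have h1 : (r / 2) ^ dn ≤ (R : ℝ) ^ dn := pow_le_pow_left₀ (by positivity) hRr2 _
    refine le_trans ?_ h1
    rw [div_pow, hrF, le_div_iff₀ (by positivity), mul_comm]
    exact hFY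
  · have h6 : (((2 * R + 1 : ℕ) : ℝ)) ≤ 3 * R := by push_cast; linarith
    have h7 : (((2 * R + 1 : ℕ) : ℝ)) ^ (dn - 1) ≤ 3 ^ dn * (R : ℝ) ^ (dn - 1) := by
      calc (((2 * R + 1 : ℕ) : ℝ)) ^ (dn - 1) ≤ (3 * (R : ℝ)) ^ (dn - 1) :=
            pow_le_pow_left₀ (Nat.cast_nonneg _) h6 _
        _ = 3 ^ (dn - 1) * (R : ℝ) ^ (dn - 1) := mul_pow _ _ _
        _ ≤ 3 ^ dn * (R : ℝ) ^ (dn - 1) := by
            apply mul_le_mul_of_nonneg_right _ (by positivity)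
            exact pow_le_pow_right₀ (by norm_num) (Nat.sub_le _ _)
    have h8 : (R : ℝ) ^ (dn - 1) * R = (R : ℝ) ^ dn := by
      rw [← pow_succ]
      congr 1
      omega
    have h9 : (R : ℝ) ^ (dn - 1) ≤ Y * l1 / R := by
      rw [le_div_iff₀ hR0, h8]
      exact hRYl1
    have h10 : Cd * l1 ^ 2 ≤ R := by linarith
    have h11 : Y * l1 / R ≤ Y / (Cd * l1) := by
      rw [div_le_div_iff₀ hR0 (by positivity)]
      calc Y * l1 * (Cd * l1) = Y * (Cd * l1 ^ 2) := by ring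
        _ ≤ Y * R := mul_le_mul_of_nonneg_left h10 hY0.le
    calc (dn : ℝ) ^ 2 * (((2 * R + 1 : ℕ) : ℝ)) ^ (dn - 1)
        ≤ (dn : ℝ) ^ 2 * (3 ^ dn * (Y / (Cd * l1))) :=
          mul_le_mul_of_nonneg_left (h7.trans (mul_le_mul_of_nonneg_left (h9.trans h11)
            (by positivity))) (by positivity)
      _ = c₁ / 8 * (Y / l1) := by
          rw [hCd]
          field_simp
  · have h1 : (R : ℝ) ≤ Y * l1 := by
      refine le_trans ?_ hRYl1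
      calc (R : ℝ) = (R : ℝ) ^ 1 := (pow_one _).symm
        _ ≤ (R : ℝ) ^ dn := pow_le_pow_right₀ hR1 hdn
    have h2 : Real.log R ≤ 2 * l1 := by
      have h3 := Real.log_le_log hR0 h1
      rw [Real.log_mul hY0.ne' hl10.ne', ← hl1] at h3
      have h4 := Real.log_le_sub_one_of_pos hl10
      linarith
    have h3 : 0 ≤ Real.log (2 * C₁) := Real.log_nonneg (by linarith)
    rw [Real.log_mul (by positivity) hR0.ne']
    nlinarith only [h2, h3, h1l1]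
  · have h1 : l1 / 2 ≤ Y / l1 := by
      rw [le_div_iff₀ hl10]
      nlinarith only [hexpl1]
    have h2 : K₁ ≤ c₁ / 4 * (l1 / 2) := by
      have h3 : 8 * K₁ / c₁ ≤ l1 := by linarith
      rw [div_le_iff₀ hc₁] at h3
      linarith
    refine h2.trans ?_
    exact mul_le_mul_of_nonneg_left h1 (by positivity)

end Pool.Agent.H525.ISO
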