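import Pool.Agent.H525.ISO.Tp2
import Pool.Agent.H525.ISO.Degn
import Pool.Agent.H525.ISO.Numer

set_option autoImplicit false
set_option linter.unusedSectionVars false

/-! # The classes of the primes up to `y` -/

namespace Pool.Agent.H525.ISO

open Finset NumberField Filter
open Pool.Agent.H474R2.PG
open Pool.Agent.H525.NF

open scoped Classical

variable {K : Type} [Field K] [NumberField K] {ι : Type} [Fintype ι]

theorem card_filter_inst {α : Type} (s : Finset α) (p : α → Prop) (d1 d2 : DecidablePred p) :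
    (@Finset.filter α p d1 s).card = (@Finset.filter α p d2 s).card := by
  rw [Subsingleton.elim d1 d2]

theorem card_inter_inst {α : Type} (d1 d2 : DecidableEq α) (s t : Finset α) :
    (@Inter.inter _ (@Finset.instInter α d1) s t).card =
      (@Inter.inter _ (@Finset.instInter α d2) s t).card := by
  rw [Subsingleton.elim d1 d2]

/-- the primes above `v` which are bad for `γ` are few -/
theorem bad_primes (hcoin : S_COIN) (K : Type) [Field K] [NumberField K] (C₁ : ℝ) (hC₁ : 1 ≤ C₁) :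
    ∃ C₆ : ℝ, 0 ≤ C₆ ∧ ∀ (R l1 : ℝ), 1 ≤ R → 1 ≤ l1 →
      Real.log (2 * C₁ * R) ≤ (Real.log (2 * C₁) + 2) * l1 → ∀ γ : 𝓞 K, γ ≠ 0 →
      (∀ σ : K →ₐ[ℚ] ℂ, ‖σ (γ : K)‖ ≤ 2 * C₁ * R) →
      (∀ v : ℝ, 1 < v → ∀ S : Finset ℕ, (∀ ℓ ∈ S, ℓ.Prime ∧ v < ℓ ∧ (ℓ : ℤ) ∣ Algebra.norm ℤ γ) →
        (S.card : ℝ) * Real.log v ≤ C₆ * l1) ∧
      ((∀ σ τ : K →ₐ[ℚ] ℂ, σ ≠ τ → σ (γ : K) ≠ τ (γ : K)) → ∀ v : ℝ, 1 < v → ∃ Bad : Finset ℕ,
        (Bad.card : ℝ) * Real.log v ≤ C₆ * l1 ∧ ∀ ℓ : ℕ, ℓ.Prime → v < ℓ → ℓ ∉ Bad →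
          ¬ (ℓ : ℤ) ∣ Algebra.norm ℤ γ ∧
          ∀ (P P' : Ideal (𝓞 K)) (r : ℤ), Ideal.absNorm P = ℓ → Ideal.absNorm P' = ℓ →
          P ≠ P' → γ - (r : 𝓞 K) ∈ P → γ - (r : 𝓞 K) ∈ P' → False) := by
  obtain ⟨CD, mD, hCD, hco⟩ := hcoin K
  set dn := Module.finrank ℚ K with hdn
  set L₀ : ℝ := Real.log (2 * C₁) + 2 with hL₀
  have hL₀0 : 0 ≤ L₀ := by
    have : 0 ≤ Real.log (2 * C₁) := Real.log_nonneg (by linarith)
    linarith
  have hlCD : 0 ≤ Real.log CD := Real.log_nonneg hCD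
  refine ⟨(dn : ℝ) * L₀ + (Real.log CD + mD * L₀), by positivity, ?_⟩
  intro R l1 hR hl1 hlog γ hγ0 hγ
  set Bγ : ℝ := 2 * C₁ * R with hBγ
  have hBγ1 : 1 ≤ Bγ := by nlinarith only [hC₁, hR, hBγ]
  have hBγ0 : 0 < Bγ := by linarith
  have hN0 : Algebra.norm ℤ γ ≠ 0 := by rwa [Ne, Algebra.norm_eq_zero_iff]
  have hNn : (Algebra.norm ℤ γ).natAbs ≠ 0 := Int.natAbs_ne_zero.2 hN0
  have hNle : (((Algebra.norm ℤ γ).natAbs : ℕ) : ℝ) ≤ Bγ ^ dn := by
    rw [Nat.cast_natAbs, Int.cast_abs, norm_eq, hdn, ← card_emb (K := K), ← Finset.card_univ,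
      ← Finset.prod_const]
    exact Finset.prod_le_prod (fun _ _ => norm_nonneg _) (fun σ _ => hγ σ)
  have hNlog : Real.log (((Algebra.norm ℤ γ).natAbs : ℕ) : ℝ) ≤ dn * (L₀ * l1) := by
    have h1 := Real.log_le_log (by exact_mod_cast Nat.pos_of_ne_zero hNn) hNle
    rw [Real.log_pow] at h1
    exact h1.trans (mul_le_mul_of_nonneg_left hlog (Nat.cast_nonneg _))
  have hsmall : (dn : ℝ) * (L₀ * l1) ≤ ((dn : ℝ) * L₀ + (Real.log CD + mD * L₀)) * l1 := by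
    have h1 : 0 ≤ (Real.log CD + mD * L₀) * l1 := by positivity
    linarith
  refine ⟨?_, ?_⟩
  · intro v hv S hS
    have h1 : S ⊆ (Algebra.norm ℤ γ).natAbs.primeFactors.filter (fun ℓ : ℕ => v < ℓ) := by
      intro ℓ hℓ
      obtain ⟨h2, h3, h4⟩ := hS ℓ hℓ
      rw [mem_filter, Nat.mem_primeFactors]
      exact ⟨⟨h2, Int.natCast_dvd.1 h4, hNn⟩, h3⟩
    have h2 := few_div _ hNn v hv
    have h3 : (S.card : ℝ) ≤
        (((Algebra.norm ℤ γ).natAbs.primeFactors.filter (fun ℓ : ℕ => v < ℓ)).card : ℝ) := by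
      exact_mod_cast Finset.card_le_card h1
    have h4 := mul_le_mul_of_nonneg_right h3 (Real.log_nonneg hv.le)
    linarith
  · intro hsep v hv
    obtain ⟨D, hD0, hDle, hDdiv⟩ := hco γ Bγ hBγ1 hγ hsep
    refine ⟨((Algebra.norm ℤ γ).natAbs * D).primeFactors.filter (fun ℓ : ℕ => v < ℓ), ?_, ?_⟩
    · have h1 := few_div _ (mul_ne_zero hNn hD0) v hv
      refine h1.trans ?_
      have hDpos : (0:ℝ) < D := by exact_mod_cast Nat.pos_of_ne_zero hD0
      have hNpos : (0:ℝ) < (((Algebra.norm ℤ γ).natAbs : ℕ) : ℝ) := by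
        exact_mod_cast Nat.pos_of_ne_zero hNn
      rw [Nat.cast_mul, Real.log_mul hNpos.ne' hDpos.ne']
      have h2 : Real.log D ≤ Real.log CD + mD * (L₀ * l1) := by
        have h3 := Real.log_le_log hDpos hDle
        rw [Real.log_mul (by linarith) (by positivity), Real.log_pow] at h3
        have h4 : (mD : ℝ) * Real.log Bγ ≤ mD * (L₀ * l1) :=
          mul_le_mul_of_nonneg_left hlog (Nat.cast_nonneg _)
        linarith
      have h5 : Real.log CD ≤ Real.log CD * l1 := by nlinarith only [hlCD, hl1]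
      have h6 : ((dn : ℝ) * L₀ + (Real.log CD + mD * L₀)) * l1 =
          dn * (L₀ * l1) + (Real.log CD * l1 + mD * (L₀ * l1)) := by ring
      rw [h6]
      linarith
    · intro ℓ hℓ hvℓ hℓB
      have hnd : ¬ ℓ ∣ (Algebra.norm ℤ γ).natAbs * D := by
        intro h
        apply hℓB
        rw [mem_filter, Nat.mem_primeFactors]
        exact ⟨⟨hℓ, h, mul_ne_zero hNn hD0⟩, hvℓ⟩
      refine ⟨fun h => hnd (Dvd.dvd.mul_right (Int.natCast_dvd.1 h) _), ?_⟩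
      intro P P' r hP hP' hne h1 h2
      have h3 := hDdiv P P' r (by rw [hP]; exact hℓ) (by rw [hP, hP']) hne h1 h2
      rw [hP] at h3
      exact hnd (Dvd.dvd.mul_left h3 _)

/-- **The covering.** -/
theorem cover (hU : S_UNIT) (hcoin : S_COIN) (hdeg : S_DEG1) (α : ι → 𝓞 K)
    (hα : LinearIndependent ℤ α) (hc : Fintype.card ι = Module.finrank ℚ K)
    (hspan : ∀ t : 𝓞 K, ∃ x, th α x = t) (E : Finset ℕ) (hE : ∀ p ∈ E, p.Prime) :
    ∃ (c : ℝ) (y₀ : ℕ), 0 < c ∧ ∀ y : ℕ, y₀ ≤ y → ∀ Y l1 l2 l3 : ℝ, Y = ((y / 2 : ℕ) : ℝ) →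
      l1 = Real.log Y → l2 = Real.log l1 → l3 = Real.log l2 → ∀ p₀ : ℕ, p₀.Prime →
      ∃ b : ℕ → ℕ, (∀ ℓ : ℕ, ℓ.Prime → ¬ ℓ ∣ b ℓ) ∧ ∀ (r : ℝ), 0 ≤ r →
        r ^ Fintype.card ι ≤ c * (Y * l1 * l3 / l2 ^ 2) → ∀ w : ι → ℤ, w ≠ 0 →
        (∀ i, |((w i : ℤ) : ℝ)| ≤ r) → ∃ ℓ : ℕ, ℓ.Prime ∧ ℓ ≤ y ∧ ℓ ∉ E ∧ ℓ ≠ p₀ ∧
          ∃ P : Ideal (𝓞 K), P.IsPrime ∧ ((ℓ : ℕ) : 𝓞 K) ∈ P ∧
            ((b ℓ : ℕ) : 𝓞 K) + th α w ∈ P := by
  obtain ⟨CT, A₀, BT, hCT, hA₀, hT⟩ := Tp_card hU α hα hc E hE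
  obtain ⟨A, CM, hA, hCM, w₀, hw₀, -, hmert, -, -⟩ := mertens_PI K
  obtain ⟨C₁, hC₁, hemb⟩ := emb_bound α
  obtain ⟨C₆, hC₆, hbadp⟩ := bad_primes hcoin K C₁ hC₁
  obtain ⟨c₁, hc₁, N₀, hdegK⟩ := hdeg K
  set dn := Fintype.card ι with hdn
  set d : ℝ := (dn : ℝ) with hd
  have hfin : (Module.finrank ℚ K : ℝ) = d := by rw [hd, hc]
  have hdn0 : 0 < dn := by rw [hc]; exact Module.finrank_pos
  have hd1 : 1 ≤ d := by rw [hd]; exact_mod_cast hdn0
  have hne : Nonempty ι := Fintype.card_pos_iff.1 hdn0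
  obtain ⟨e, he⟩ := hspan 1
  set Ce : ℕ := ∑ i, (e i).natAbs with hCe
  have heCe : ∀ i, |e i| ≤ Ce := by
    intro i
    rw [Int.abs_eq_natAbs]
    have : (e i).natAbs ≤ Ce := Finset.single_le_sum (f := fun i => (e i).natAbs)
      (fun _ _ => Nat.zero_le _) (mem_univ i)
    exact_mod_cast this
  set C₇ : ℝ := ((E.card : ℝ) + 1 + C₆) * d with hC₇
  have hEc : (0:ℝ) ≤ (E.card : ℝ) := Nat.cast_nonneg _
  have hd0 : 0 ≤ d := by linarith
  have hC₇0 : 0 ≤ C₇ := mul_nonneg (by linarith) hd0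
  set CS : ℝ := CT * (Real.exp (CM + C₇) * A₀) with hCS
  have hCS0 : 0 < CS := mul_pos hCT (mul_pos (Real.exp_pos _) (by linarith))
  set c₂ : ℝ := min 1 (c₁ / (8 * CS)) with hc₂
  have hc₂0 : 0 < c₂ := lt_min one_pos (by positivity)
  have hc₂1 : c₂ ≤ 1 := min_le_left _ _
  have hc₂S : CS * c₂ ≤ c₁ / 8 := by
    have h1 : c₂ ≤ c₁ / (8 * CS) := min_le_right _ _
    rw [le_div_iff₀ (by positivity)] at h1
    linarith
  set K₁ : ℝ := C₆ + (E.card : ℝ) + 3 with hK₁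
  have hK₁0 : 0 ≤ K₁ := by linarith
  obtain ⟨BN, hBN1, hnum⟩ := numer dn hdn0 c₂ C₁ Ce c₁ K₁ hc₂0 hc₂1 hC₁ (Nat.cast_nonneg _) hc₁
    hK₁0
  obtain ⟨y₁, hy₁⟩ := ev_sieve (max (max BT BN) (max w₀ ((E.sup id : ℕ) : ℝ)))
  refine ⟨c₂ / 4 ^ dn, max N₀ (2 * (⌈y₁⌉₊ + 4)), by positivity, ?_⟩
  intro y hy Y l1 l2 l3 hY hl1 hl2 hl3 p₀ hp₀
  have hyN : N₀ ≤ y := (le_max_left _ _).trans hy
  have hyn1 : 2 * (⌈y₁⌉₊ + 4) ≤ y := (le_max_right _ _).trans hy
  have hY1 : y₁ ≤ Y := by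
    rw [hY]
    refine (Nat.le_ceil _).trans ?_
    have : ⌈y₁⌉₊ ≤ y / 2 := by omega
    exact_mod_cast this
  obtain ⟨f1, f2, f3, f4, f5⟩ := hy₁ Y hY1 l1 l2 l3 hl1 hl2 hl3
  set BB := max (max BT BN) (max w₀ ((E.sup id : ℕ) : ℝ)) with hBB
  have b1 : BT ≤ BB := (le_max_left _ _).trans (le_max_left _ _)
  have b2 : BN ≤ BB := (le_max_right _ _).trans (le_max_left _ _)
  have b3 : w₀ ≤ BB := (le_max_left _ _).trans (le_max_right _ _)
  have b4 : ((E.sup id : ℕ) : ℝ) ≤ BB := (le_max_right _ _).trans (le_max_right _ _)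
  have hBB1 : 1 ≤ BB := by linarith
  have h1l2 : 1 ≤ l2 := by linarith
  have hl20 : 0 < l2 := by linarith
  have hl2sq : l2 ≤ l2 ^ 2 := by nlinarith only [h1l2]
  have hl12 : l2 ≤ l1 := by nlinarith only [hl2sq, hBB1, f4]
  have hBBl1 : BB ≤ l1 := by nlinarith only [hl2sq, hBB1, f4, h1l2]
  have h3l1 : 3 ≤ l1 := by linarith
  have hl10 : 0 < l1 := by linarith
  have hY0 : 0 < Y := by linarith
  have hl30 : 0 < l3 := by linarith
  have hYexp : Real.exp l1 = Y := by rw [hl1, Real.exp_log hY0]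
  have hl1exp : Real.exp l2 = l1 := by rw [hl2, Real.exp_log hl10]
  have hl1Y : l1 ≤ Y := by
    rw [hl1]; linarith only [Real.log_le_sub_one_of_pos hY0]
  obtain ⟨R, r1, r2, r3, r4, r5, r6, r7, r8, r9⟩ := hnum Y l1 l2 l3 f5 hl1 (b2.trans f1) f3
    ((mul_le_mul_of_nonneg_right b2 (sq_nonneg _)).trans f4)
  have hR1 : (1:ℝ) ≤ R := by exact_mod_cast r7
  set z : ℝ := Real.exp (l1 * l3 / (A₀ * l2)) with hz
  have hlz : Real.log z = l1 * l3 / (A₀ * l2) := by rw [hz, Real.log_exp]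
  have hA₀0 : 0 < A₀ := by linarith
  have hlzy : Real.log z ≤ l1 := by
    rw [hlz, div_le_iff₀ (by positivity)]
    have : l3 ≤ A₀ * l2 := by nlinarith only [f3, hA₀, hl20]
    nlinarith only [this, hl10]
  have hzY : z ≤ Y := by
    rw [← hYexp, hz, Real.exp_le_exp, ← hlz]
    exact hlzy
  set E' : Finset ℕ := insert p₀ E with hE'
  have hE'card : (E'.card : ℝ) ≤ (E.card : ℝ) + 1 := by
    exact_mod_cast Finset.card_insert_le _ _
  have hYy : Y ≤ y := by rw [hY]; exact_mod_cast Nat.div_le_self _ _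
  -- the set `T`
  set T : Finset (ι → ℤ) := (Box (fun _ => -(R:ℤ)) (2 * R + 1)).filter (fun w => th α w ≠ 1 ∧
    ∀ ℓ : ℕ, ℓ.Prime → (ℓ : ℝ) ≤ Y → ℓ ∉ E → ℓ ≠ p₀ →
          ((ℓ : ℝ) ≤ l1 ∨ z < ℓ) →
          ∀ P : Ideal (𝓞 K), P.IsPrime → ((ℓ : ℕ) : 𝓞 K) ∈ P → th α w ∉ P) with hTdef
  have hTbox : ∀ w ∈ T, ∀ i, |w i| ≤ R := by
    intro w hw i
    rw [hTdef, mem_filter, mem_Box] at hw
    have := hw.1 i
    rw [abs_le]
    push_cast at this
    omega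
  have hTcard := hT Y l1 l2 l3 R f5 hl1 hl2 hl3 f2 f3 (by linarith)
    ((mul_le_mul_of_nonneg_right b1 (sq_nonneg _)).trans f4) r3 r4 p₀ hp₀ T hTbox (by
      intro w hw
      rw [hTdef, mem_filter] at hw
      exact hw.2.2)
  -- the differences
  set gm : (ι → ℤ) → 𝓞 K := fun w => th α w - 1 with hgm
  have hgm0 : ∀ w ∈ T, gm w ≠ 0 := by
    intro w hw h
    rw [hTdef, mem_filter] at hw
    exact hw.2.1 (sub_eq_zero.1 h)
  have hgmb : ∀ w ∈ T, ∀ σ : K →ₐ[ℚ] ℂ, ‖σ (gm w : K)‖ ≤ 2 * C₁ * R := by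
    intro w hw σ
    have h1 : gm w = th α (w - e) := by rw [hgm, map_sub, he]
    rw [h1]
    refine (hemb σ (w - e) (2 * R) (by positivity) (fun i => ?_)).trans (le_of_eq (by ring))
    have h2 := hTbox w hw i
    have h3 := heCe i
    have h4 : |(w - e) i| ≤ R + Ce := by
      rw [Pi.sub_apply]
      exact (abs_sub _ _).trans (add_le_add h2 h3)
    have h5 : |(((w - e) i : ℤ) : ℝ)| ≤ (R : ℝ) + Ce := by exact_mod_cast h4
    linarith
  -- the degenerate points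
  set Td := T.filter (fun w => ∃ σ τ : K →ₐ[ℚ] ℂ, σ ≠ τ ∧
    σ ((th α w : 𝓞 K) : K) = τ ((th α w : 𝓞 K) : K)) with hTd
  set T₁ := T.filter (fun w => ¬ ∃ σ τ : K →ₐ[ℚ] ℂ, σ ≠ τ ∧
    σ ((th α w : 𝓞 K) : K) = τ ((th α w : 𝓞 K) : K)) with hT₁
  have hTdcard : (Td.card : ℝ) ≤ c₁ / 8 * (Y / l1) := by
    refine (deg_card α hspan hc R Td (fun w hw => hTbox w (mem_filter.1 hw).1)
      (fun w hw => (mem_filter.1 hw).2)).trans r5
  -- the small primes
  set Sm := (PR z).filter (fun ℓ : ℕ => l1 < ℓ ∧ ℓ ∉ E') with hSm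
  have hSmp : ∀ ℓ ∈ Sm, ℓ.Prime ∧ l1 < ℓ ∧ (ℓ : ℝ) ≤ z ∧ ℓ ∉ E ∧ ℓ ≠ p₀ := by
    intro ℓ hℓ
    rw [hSm, mem_filter, mem_PR, hE', mem_insert, not_or] at hℓ
    exact ⟨hℓ.1.1, hℓ.2.1, hℓ.1.2, hℓ.2.2.2, hℓ.2.2.1⟩
  obtain ⟨cc, hcc1, hcc2⟩ := Pool.Agent.H525.AC.potential Sm (fun ℓ => Finset.Ico 1 ℓ) T₁
    (fun ℓ w => Aset (gm w) ℓ)
    (by
      intro ℓ hℓ
      exact ⟨1, Finset.mem_Ico.2 ⟨le_rfl, (hSmp ℓ hℓ).1.one_lt⟩⟩)
    (by
      intro ℓ _ w _
      exact Finset.filter_subset _ _)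
  set T₂ := T₁.filter (fun w => ∀ ℓ ∈ Sm, cc ℓ ∉ Aset (gm w) ℓ) with hT₂
  have hprod : ∀ w ∈ T₁, ∏ ℓ ∈ Sm, (1 - ((Aset (gm w) ℓ).card : ℝ) / ((Finset.Ico 1 ℓ).card : ℝ)) ≤
      Real.exp (CM + C₇) * (A₀ * l2 ^ 2 / (l1 * l3)) := by
    intro w hw
    have hwT : w ∈ T := (mem_filter.1 hw).1
    obtain ⟨-, hb2⟩ := hbadp R l1 hR1 (by linarith) r8 (gm w) (hgm0 w hwT) (hgmb w hwT)
    obtain ⟨Bad, hBad1, hBad2⟩ := hb2 (by
      intro σ τ hστ h
      apply (mem_filter.1 hw).2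
      refine ⟨σ, τ, hστ, ?_⟩
      simp only [hgm] at h
      push_cast at h
      rw [map_sub, map_sub, map_one, map_one] at h
      exact sub_left_injective h) l1 (by linarith)
    have h1 := sum_A_lower (gm w) l1 z (by linarith) E' Bad hBad2
    refine (Pool.Agent.H525.AC.prod_one_sub_le Sm _ _ (fun ℓ hℓ => ?_) (fun ℓ _ => ?_)).trans ?_
    · rw [Nat.card_Ico]
      have := (hSmp ℓ hℓ).1.one_lt
      exact_mod_cast (by omega : 0 < ℓ - 1)
    · exact_mod_cast Finset.card_le_card (Finset.filter_subset _ _)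
    · have hmz : Real.log (Real.log z) - Real.log (Real.log l1) - CM ≤
          ∑ P ∈ PI K l1 z, 1 / (Ideal.absNorm P : ℝ) := by
        rcases le_or_gt l1 z with h | h
        · exact hmert l1 z (by linarith) h
        · have h2 : Real.log z ≤ Real.log l1 := Real.log_le_log (Real.exp_pos _) h.le
          have hlz0 : 0 < Real.log z := by rw [hlz]; positivity
          have h3 : Real.log (Real.log z) ≤ Real.log (Real.log l1) := Real.log_le_log hlz0 h2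
          have h4 : 0 ≤ ∑ P ∈ PI K l1 z, 1 / (Ideal.absNorm P : ℝ) :=
            Finset.sum_nonneg (fun _ _ => by positivity)
          linarith
      have hsmall : ((E'.card : ℝ) + Bad.card) * Module.finrank ℚ K / l1 ≤ C₇ := by
        rw [hfin, div_le_iff₀ hl10, hC₇]
        rw [← hl2] at hBad1
        have h2 : (Bad.card : ℝ) ≤ C₆ * l1 := by
          have h3 : (Bad.card : ℝ) * 1 ≤ Bad.card * l2 :=
            mul_le_mul_of_nonneg_left h1l2 (Nat.cast_nonneg _)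
          linarith
        have h3 : (E'.card : ℝ) ≤ ((E.card : ℝ) + 1) * l1 := by
          have h4 : (0:ℝ) ≤ (E.card : ℝ) + 1 := by linarith
          nlinarith only [hE'card, h4, h3l1]
        have h4 : ((E'.card : ℝ) + Bad.card) * d ≤ (((E.card : ℝ) + 1) * l1 + C₆ * l1) * d :=
          mul_le_mul_of_nonneg_right (by linarith) (by linarith)
        refine h4.trans (le_of_eq (by ring))
      have hlz0 : 0 < Real.log z := by rw [hlz]; positivity
      have h2 : Real.exp (CM + C₇) * (A₀ * l2 ^ 2 / (l1 * l3)) =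
          Real.exp (-(Real.log (Real.log z) - Real.log (Real.log l1) - CM - C₇)) := by
        have h3 : -(Real.log (Real.log z) - Real.log (Real.log l1) - CM - C₇) =
            (CM + C₇) + (Real.log (Real.log l1) - Real.log (Real.log z)) := by ring
        have h5 : Real.exp (Real.log (Real.log l1) - Real.log (Real.log z)) =
            A₀ * l2 ^ 2 / (l1 * l3) := by
          rw [Real.exp_sub, Real.exp_log hlz0, ← hl2, Real.exp_log hl20, hlz]
          field_simp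
        rw [h3, Real.exp_add (CM + C₇), h5]
      rw [h2]
      apply Real.exp_le_exp.2
      linarith
  have hT₂card : (T₂.card : ℝ) ≤ c₁ / 8 * (Y / l1) := by
    have h0 : (T₂.card : ℝ) ≤ ∑ t ∈ T₁, ∏ i ∈ Sm, (1 - ((Aset (gm t) i).card : ℝ) /
        ((Finset.Ico 1 i).card : ℝ)) := by
      refine le_trans ?_ hcc2
      have hsub : T₂ ⊆ T₁.filter (fun t => ∀ i ∈ Sm, cc i ∉ Aset (gm t) i) := by
        intro t ht
        rw [hT₂, Finset.mem_filter] at ht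
        exact Finset.mem_filter.2 ht
      have h9 : ((T₂.card : ℕ) : ℝ) ≤ (((T₁.filter (fun t => ∀ i ∈ Sm, cc i ∉ Aset (gm t) i)).card : ℕ) : ℝ) := by
        exact_mod_cast Finset.card_le_card hsub
      refine h9.trans (le_of_eq ?_)
      rw [Nat.cast_inj]
      exact card_filter_inst _ _ _ _
    refine h0.trans ((Finset.sum_le_sum hprod).trans ?_)
    rw [Finset.sum_const, nsmul_eq_mul]
    have h1 : (T₁.card : ℝ) ≤ CT * ((R : ℝ) ^ dn / l1) := by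
      refine le_trans ?_ hTcard
      exact_mod_cast Finset.card_le_card (Finset.filter_subset _ _)
    have h2 : CT * ((R : ℝ) ^ dn / l1) ≤ CT * (c₂ * (Y * l1 * l3 / l2 ^ 2) / l1) :=
      mul_le_mul_of_nonneg_left (div_le_div_of_nonneg_right r1 hl10.le) hCT.le
    have h3 : 0 ≤ Real.exp (CM + C₇) * (A₀ * l2 ^ 2 / (l1 * l3)) := by positivity
    refine (mul_le_mul_of_nonneg_right (h1.trans h2) h3).trans ?_
    have h4 : CT * (c₂ * (Y * l1 * l3 / l2 ^ 2) / l1) *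
        (Real.exp (CM + C₇) * (A₀ * l2 ^ 2 / (l1 * l3))) = (CS * c₂) * (Y / l1) := by
      rw [hCS]
      field_simp
    rw [h4]
    exact mul_le_mul_of_nonneg_right hc₂S (by positivity)
  -- the large primes
  set Sv := T₂ ∪ Td with hSv
  have hSvT : ∀ w ∈ Sv, w ∈ T := by
    intro w hw
    rw [hSv, mem_union] at hw
    rcases hw with h | h
    · exact (mem_filter.1 (mem_filter.1 h).1).1
    · exact (mem_filter.1 h).1
  have hSvcard : (Sv.card : ℝ) ≤ c₁ / 4 * (Y / l1) := by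
    have h1 : (Sv.card : ℝ) ≤ T₂.card + Td.card := by exact_mod_cast Finset.card_union_le _ _
    linarith
  set Pr := ((Finset.Ioc (y / 2) y).filter (fun p : ℕ => p.Prime ∧
      ∃ P : Ideal (𝓞 K), Ideal.absNorm P = p)) \ E' with hPr
  have hPrm : ∀ ℓ ∈ Pr, ℓ.Prime ∧ Y < ℓ ∧ ℓ ≤ y ∧ ℓ ∉ E ∧ ℓ ≠ p₀ ∧
      ∃ P : Ideal (𝓞 K), Ideal.absNorm P = ℓ := by
    intro ℓ hℓ
    rw [hPr, Finset.mem_sdiff, Finset.mem_filter, Finset.mem_Ioc, hE', Finset.mem_insert, not_or] at hℓ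
    refine ⟨hℓ.1.2.1, ?_, hℓ.1.1.2, hℓ.2.2, hℓ.2.1, hℓ.1.2.2⟩
    rw [hY]
    exact_mod_cast hℓ.1.1.1
  have hPrcard : c₁ * (Y / l1) - ((E.card : ℝ) + 1) ≤ Pr.card := by
    have h1 := hdegK y hyN
    have hyR : (0:ℝ) < y := by linarith
    have h2 : c₁ * (Y / l1) ≤ c₁ * (y : ℝ) / Real.log y := by
      rw [mul_div_assoc]
      apply mul_le_mul_of_nonneg_left _ hc₁.le
      have h3 : 2 * Y ≤ y := by
        rw [hY]
        have : 2 * (y / 2) ≤ y := Nat.mul_div_le _ _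
        exact_mod_cast this
      have h4 : (y : ℝ) ≤ 3 * Y := by
        rw [hY]
        have : y ≤ 3 * (y / 2) := by omega
        exact_mod_cast this
      have h5 : Real.log y ≤ 2 * l1 := by
        have h6 := Real.log_le_log hyR h4
        rw [Real.log_mul (by norm_num) hY0.ne', ← hl1] at h6
        have h7 : Real.log 3 ≤ l1 := by
          have := Real.log_le_sub_one_of_pos (show (0:ℝ) < 3 by norm_num)
          linarith
        linarith
      have hly : 0 < Real.log y := Real.log_pos (by linarith)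
      rw [div_le_div_iff₀ hl10 hly]
      nlinarith only [h3, h5, hl10, hY0, hly]
    have h3 : ((((Finset.Ioc (y / 2) y).filter (fun p : ℕ => p.Prime ∧
      ∃ P : Ideal (𝓞 K), Ideal.absNorm P = p))).card : ℝ) ≤ Pr.card + E'.card := by
      have h4 := Finset.le_card_sdiff E' ((Finset.Ioc (y / 2) y).filter (fun p : ℕ => p.Prime ∧
        ∃ P : Ideal (𝓞 K), Ideal.absNorm P = p))
      rw [← hPr] at h4
      have h5 : (((Finset.Ioc (y / 2) y).filter (fun p : ℕ => p.Prime ∧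
        ∃ P : Ideal (𝓞 K), Ideal.absNorm P = p))).card ≤ Pr.card + E'.card := by omega
      exact_mod_cast h5
    linarith
  have hbadcard : ∀ w ∈ Sv, (((Finset.range (y + 1)).filter (fun ℓ : ℕ =>
      (ℓ : ℤ) ∣ Algebra.norm ℤ (gm w))) ∩ Pr).card ≤ ⌊C₆⌋₊ := by
    intro w hw
    have hwT := hSvT w hw
    obtain ⟨hb1, -⟩ := hbadp R l1 hR1 (by linarith) r8 (gm w) (hgm0 w hwT) (hgmb w hwT)
    have h1 := hb1 Y (by linarith) ((((Finset.range (y + 1)).filter (fun ℓ : ℕ =>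
      (ℓ : ℤ) ∣ Algebra.norm ℤ (gm w))) ∩ Pr)) (by
        intro ℓ hℓ
        rw [mem_inter, mem_filter] at hℓ
        obtain ⟨g1, g2, -⟩ := hPrm ℓ hℓ.2
        exact ⟨g1, g2, hℓ.1.2⟩)
    rw [← hl1] at h1
    exact Nat.le_floor (le_of_mul_le_mul_right h1 hl10)
  obtain ⟨fa, hfa1, hfa2⟩ := Pool.Agent.H525.AC.assign Pr (fun w => (Finset.range (y + 1)).filter
    (fun ℓ : ℕ => (ℓ : ℤ) ∣ Algebra.norm ℤ (gm w))) ⌊C₆⌋₊ Sv (by
      intro w hw
      have h := hbadcard w hw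
      rw [card_inter_inst _ instDecidableEqNat]
      exact h) (by
      have h1 : ((Sv.card + ⌊C₆⌋₊ : ℕ) : ℝ) ≤ Pr.card := by
        push_cast
        have h2 := Nat.floor_le hC₆
        have h3 : 0 ≤ c₁ * (Y / l1) := by positivity
        linarith
      exact_mod_cast h1)
  -- the classes
  have hPf : ∀ ℓ : ℕ, ∃ P : Ideal (𝓞 K), (∃ P' : Ideal (𝓞 K), Ideal.absNorm P' = ℓ) →
      Ideal.absNorm P = ℓ := by
    intro ℓ
    by_cases h : ∃ P' : Ideal (𝓞 K), Ideal.absNorm P' = ℓ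
    · exact ⟨h.choose, fun _ => h.choose_spec⟩
    · exact ⟨⊤, fun h' => absurd h' h⟩
  choose Pf hPf using hPf
  set b : ℕ → ℕ := fun ℓ => if ℓ ∈ Sm then cc ℓ else
    if h : ∃ w, w ∈ Sv ∧ fa w = ℓ then res (Pf ℓ) (-(gm h.choose)) else 1 with hb
  have hbS : ∀ ℓ ∈ Sm, b ℓ = cc ℓ := fun ℓ hℓ => by simp only [hb, if_pos hℓ]
  have hbL : ∀ w ∈ Sv, b (fa w) = res (Pf (fa w)) (-(gm w)) := by
    intro w hw
    obtain ⟨g1, g2, -⟩ := hPrm _ (hfa1 w hw).1
    have h1 : fa w ∉ Sm := fun h => by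
      have := (hSmp _ h).2.2.1
      linarith
    have h2 : ∃ w', w' ∈ Sv ∧ fa w' = fa w := ⟨w, hw, rfl⟩
    simp only [hb, if_neg h1, dif_pos h2]
    have h3 := hfa2 _ h2.choose_spec.1 w hw h2.choose_spec.2
    rw [h3]
  have hb1 : ∀ ℓ : ℕ, (ℓ : ℝ) ≤ Y → ((ℓ : ℝ) ≤ l1 ∨ z < ℓ) → b ℓ = 1 := by
    intro ℓ hℓ hℓ2
    have h1 : ℓ ∉ Sm := fun h => by
      have g := hSmp _ h
      rcases hℓ2 with h2 | h2
      · linarith [g.2.1]
      · linarith [g.2.2.1]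
    have h2 : ¬ ∃ w', w' ∈ Sv ∧ fa w' = ℓ := by
      rintro ⟨w', hw', h3⟩
      obtain ⟨g1, g2, -⟩ := hPrm _ (hfa1 w' hw').1
      rw [h3] at g2
      linarith
    simp only [hb, if_neg h1, dif_neg h2]
  have hLres : ∀ w ∈ Sv, res (Pf (fa w)) (-(gm w)) ∈ Finset.Ico 1 (fa w) ∧
      ((res (Pf (fa w)) (-(gm w)) : ℕ) : 𝓞 K) + gm w ∈ Pf (fa w) := by
    intro w hw
    obtain ⟨g1, g2, g3, -, -, g4⟩ := hPrm _ (hfa1 w hw).1
    apply res_neg g1 (hPf _ g4)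
    intro h
    apply (hfa1 w hw).2
    rw [mem_filter, Finset.mem_range]
    exact ⟨by omega, h⟩
  refine ⟨b, ?_, ?_⟩
  · intro ℓ hℓ
    by_cases h1 : ℓ ∈ Sm
    · rw [hbS ℓ h1]
      have h2 := hcc1 ℓ h1
      rw [Finset.mem_Ico] at h2
      intro h3
      have := Nat.le_of_dvd (by omega) h3
      omega
    · by_cases h2 : ∃ w, w ∈ Sv ∧ fa w = ℓ
      · obtain ⟨w, hw, rfl⟩ := h2
        rw [hbL w hw]
        have h3 := (hLres w hw).1
        rw [Finset.mem_Ico] at h3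
        intro h4
        have := Nat.le_of_dvd (by omega) h4
        omega
      · simp only [hb, if_neg h1, dif_neg h2]
        exact hℓ.one_lt.ne' ∘ Nat.dvd_one.1
  · intro r hr hrc w hw0 hwr
    have hrR := r2 r hr hrc
    set η : ι → ℤ := w + e with hη
    have hthη : th α η = th α w + 1 := by rw [hη, map_add, he]
    have hηR : ∀ i, |η i| ≤ R := by
      intro i
      have h1 : |((η i : ℤ) : ℝ)| ≤ R := by
        rw [hη, Pi.add_apply, Int.cast_add]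
        have h2 : |((e i : ℤ) : ℝ)| ≤ Ce := by exact_mod_cast heCe i
        exact ((abs_add_le _ _).trans (add_le_add (hwr i) h2)).trans hrR
      exact_mod_cast h1
    have hηbox : η ∈ Box (fun _ => -(R:ℤ)) (2 * R + 1) := by
      rw [mem_Box]
      intro i
      have := hηR i
      rw [abs_le] at this
      push_cast
      omega
    have hη1 : th α η ≠ 1 := by
      intro h
      apply hw0
      apply th_inj hα
      rw [hthη] at h
      rw [map_zero]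
      exact add_eq_right.1 h
    have hgmη : gm η = th α w := by
      simp only [hgm]
      rw [hthη]
      ring
    by_cases hηT : η ∈ T
    · by_cases hηS : η ∈ Sv
      · obtain ⟨g1, g2, g3, g4, g5, g6⟩ := hPrm _ (hfa1 η hηS).1
        obtain ⟨h1, h2⟩ := hLres η hηS
        refine ⟨fa η, g1, g3, g4, g5, Pf (fa η), ?_, ?_, ?_⟩
        · exact isPrime_of (by rw [hPf _ g6]; exact g1)
        · have := Ideal.absNorm_mem (Pf (fa η))
          rwa [hPf _ g6] at this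
        · rw [hbL η hηS, ← hgmη]
          exact h2
      · -- removed by a small prime
        rw [hSv, mem_union, not_or] at hηS
        have h1 : η ∈ T₁ := by
          rw [hT₁, Finset.mem_filter]
          refine ⟨hηT, fun h => hηS.2 ?_⟩
          rw [hTd, Finset.mem_filter]
          exact ⟨hηT, h⟩
        have h2 : ∃ ℓ ∈ Sm, cc ℓ ∈ Aset (gm η) ℓ := by
          by_contra hcon
          push Not at hcon
          exact hηS.1 (Finset.mem_filter.2 ⟨h1, hcon⟩)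
        obtain ⟨ℓ, hℓ, hcℓ⟩ := h2
        obtain ⟨g1, g2, g3, g4, g5⟩ := hSmp ℓ hℓ
        unfold Aset at hcℓ
        rw [Finset.mem_filter] at hcℓ
        obtain ⟨-, P, hP1, hP2⟩ := hcℓ
        refine ⟨ℓ, g1, ?_, g4, g5, P, isPrime_of (by rw [hP1]; exact g1), ?_, ?_⟩
        · have : (ℓ : ℝ) ≤ y := by linarith
          exact_mod_cast this
        · rw [← hP1]
          exact Ideal.absNorm_mem P
        · rw [hbS ℓ hℓ, ← hgmη]
          exact hP2
    · -- removed by a tiny or a medium prime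
      rw [hTdef, mem_filter] at hηT
      push Not at hηT
      obtain ⟨ℓ, g1, g2, g3, g4, g5, P, g6, g7, g8⟩ := hηT hηbox hη1
      refine ⟨ℓ, g1, ?_, g3, g4, P, g6, g7, ?_⟩
      · have : (ℓ : ℝ) ≤ y := by linarith
        exact_mod_cast this
      · rw [hb1 ℓ g2 g5, Nat.cast_one, add_comm, ← hthη]
        exact g8

end Pool.Agent.H525.ISO
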