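import Pool.Agent.H525.ISO.Stm
import Pool.Graph.R_seed8.H484R2.Pit

set_option autoImplicit false

/-! # Many primes in `(N/2, N]` which are norms of ideals (for helper525) -/

namespace Pool.Agent.H525.ISO

open Finset NumberField Filter Topology

namespace DEG1X

variable (K : Type) [Field K] [NumberField K]

/-- the sum of the numbers of homomorphisms to `ZMod p` -/
noncomputable def AA (N : ℕ) : ℝ :=
  ∑ p ∈ (Finset.range (N + 1)).filter Nat.Prime, (Nat.card (𝓞 K →+* ZMod p) : ℝ)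

theorem AA_tendsto : Tendsto (fun N : ℕ => AA K N * Real.log N / N) atTop (𝓝 1) := by
  have h1 := Pool.Agent.H484R2.pit K
  have h2 : Tendsto (fun N : ℕ => (Nat.primeCounting N : ℝ) * Real.log N / N) atTop (𝓝 1) := by
    have := Pool.Agent.Helper923.PNT.pi_tendsto.comp (tendsto_natCast_atTop_atTop (R := ℝ))
    refine this.congr fun N => ?_
    simp only [Function.comp, Nat.floor_natCast]
  have h3 := h1.mul h2
  rw [mul_one] at h3
  refine h3.congr' ?_
  filter_upwards [eventually_ge_atTop 2] with N hN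
  have hp : (Nat.primeCounting N : ℝ) ≠ 0 := by
    have : Nat.primeCounting N ≠ 0 := by
      rw [Ne, Nat.primeCounting_eq_zero_iff]
      omega
    exact_mod_cast this
  unfold AA
  field_simp

omit [NumberField K] in
theorem AA_sub (N : ℕ) : AA K N - AA K (N / 2) =
    ∑ p ∈ (Finset.Ioc (N / 2) N).filter Nat.Prime, (Nat.card (𝓞 K →+* ZMod p) : ℝ) := by
  have hd : Disjoint ((Finset.range (N / 2 + 1)).filter Nat.Prime)
      ((Finset.Ioc (N / 2) N).filter Nat.Prime) := by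
    rw [Finset.disjoint_left]
    intro p hp hp'
    rw [mem_filter, mem_range] at hp
    rw [mem_filter, mem_Ioc] at hp'
    omega
  have hu : (Finset.range (N + 1)).filter Nat.Prime =
      (Finset.range (N / 2 + 1)).filter Nat.Prime ∪
        (Finset.Ioc (N / 2) N).filter Nat.Prime := by
    ext p
    rw [mem_union, mem_filter, mem_filter, mem_filter, mem_range, mem_range, mem_Ioc]
    constructor
    · rintro ⟨h1, h2⟩
      by_cases h : p < N / 2 + 1
      · exact Or.inl ⟨h, h2⟩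
      · exact Or.inr ⟨⟨by omega, by omega⟩, h2⟩
    · rintro (⟨h1, h2⟩ | ⟨h1, h2⟩)
      · exact ⟨by omega, h2⟩
      · exact ⟨by omega, h2⟩
  unfold AA
  rw [hu, sum_union hd]
  ring

theorem ideal_of_card {p : ℕ} (h : Nat.card (𝓞 K →+* ZMod p) ≠ 0) :
    ∃ P : Ideal (𝓞 K), Ideal.absNorm P = p := by
  have hne : Nonempty (𝓞 K →+* ZMod p) := (Nat.card_ne_zero.1 h).1
  obtain ⟨φ⟩ := hne
  refine ⟨RingHom.ker φ, ?_⟩
  have e := RingHom.quotientKerEquivOfSurjective (ZMod.ringHom_surjective φ)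
  have h1 : Nat.card (𝓞 K ⧸ RingHom.ker φ) = Nat.card (ZMod p) := Nat.card_congr e.toEquiv
  rw [Nat.card_zmod] at h1
  exact h1

end DEG1X

open scoped Classical in
theorem t_DEG1 : S_DEG1 := by
  intro K _ _
  set d : ℝ := (Module.finrank ℚ K : ℝ) with hd
  have hd0 : 0 < d := by
    rw [hd]
    exact_mod_cast Module.finrank_pos (R := ℚ) (M := K)
  have hT := DEG1X.AA_tendsto K
  have e1 : ∀ᶠ N : ℕ in atTop, 9 / 10 < DEG1X.AA K N * Real.log N / N :=
    hT.eventually_const_lt (by norm_num)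
  have e2 : ∀ᶠ N : ℕ in atTop, DEG1X.AA K N * Real.log N / N < 11 / 10 :=
    hT.eventually_lt_const (by norm_num)
  have hhalf : Tendsto (fun N : ℕ => N / 2) atTop atTop :=
    Nat.tendsto_div_const_atTop (by norm_num)
  have e3 := hhalf.eventually e2
  have hlog : Tendsto (fun N : ℕ => Real.log N) atTop atTop :=
    Real.tendsto_log_atTop.comp (tendsto_natCast_atTop_atTop (R := ℝ))
  have e4 := hlog.eventually_ge_atTop (12 * Real.log 4)
  obtain ⟨N₀, hN₀⟩ := eventually_atTop.1 (e1.and (e3.and (e4.and (eventually_ge_atTop 8))))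
  refine ⟨3 / (10 * d), by positivity, N₀, fun N hN => ?_⟩
  obtain ⟨h1, h3, h4, h8⟩ := hN₀ N hN
  have hN0 : (0 : ℝ) < N := by exact_mod_cast (by omega : 0 < N)
  have hl4 : 0 < Real.log 4 := Real.log_pos (by norm_num)
  have hl : 0 < Real.log N := by linarith
  have hM4 : (4 : ℝ) ≤ ((N / 2 : ℕ) : ℝ) := by exact_mod_cast (by omega : 4 ≤ N / 2)
  have hM0 : (0 : ℝ) < ((N / 2 : ℕ) : ℝ) := by linarith
  have hMN : ((N / 2 : ℕ) : ℝ) ≤ N / 2 := Nat.cast_div_le
  have hMN' : (N : ℝ) / 4 ≤ ((N / 2 : ℕ) : ℝ) := by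
    have : N ≤ 4 * (N / 2) := by omega
    have : (N : ℝ) ≤ 4 * ((N / 2 : ℕ) : ℝ) := by exact_mod_cast this
    linarith
  have hlM : 11 / 12 * Real.log N ≤ Real.log ((N / 2 : ℕ) : ℝ) := by
    have h5 : Real.log (N / 4) ≤ Real.log ((N / 2 : ℕ) : ℝ) :=
      Real.log_le_log (by positivity) hMN'
    rw [Real.log_div hN0.ne' (by norm_num)] at h5
    linarith
  have hlM0 : 0 < Real.log ((N / 2 : ℕ) : ℝ) := by
    have : 0 < 11 / 12 * Real.log N := by positivity
    linarith
  rw [lt_div_iff₀ hN0] at h1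
  rw [div_lt_iff₀ hM0] at h3
  -- lower bound for `A N`
  have k1 : 9 / 10 * (N : ℝ) / Real.log N ≤ DEG1X.AA K N := by
    rw [div_le_iff₀ hl]; exact h1.le
  have hAnn : 0 ≤ DEG1X.AA K (N / 2) := by
    unfold DEG1X.AA
    exact Finset.sum_nonneg fun _ _ => Nat.cast_nonneg _
  have k2 : DEG1X.AA K (N / 2) ≤ 6 / 10 * (N : ℝ) / Real.log N := by
    rw [le_div_iff₀ hl]
    have h6 : DEG1X.AA K (N / 2) * (11 / 12 * Real.log N) ≤
        DEG1X.AA K (N / 2) * Real.log ((N / 2 : ℕ) : ℝ) := mul_le_mul_of_nonneg_left hlM hAnn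
    nlinarith
  have k3 : 3 / 10 * (N : ℝ) / Real.log N ≤ DEG1X.AA K N - DEG1X.AA K (N / 2) := by
    have : 3 / 10 * (N : ℝ) / Real.log N =
        9 / 10 * (N : ℝ) / Real.log N - 6 / 10 * (N : ℝ) / Real.log N := by ring
    rw [this]
    linarith
  rw [DEG1X.AA_sub] at k3
  -- the count
  have k4 : ∑ p ∈ (Finset.Ioc (N / 2) N).filter Nat.Prime, (Nat.card (𝓞 K →+* ZMod p) : ℝ) ≤
      d * (((Finset.Ioc (N / 2) N).filter (fun p : ℕ => p.Prime ∧
        ∃ P : Ideal (𝓞 K), Ideal.absNorm P = p)).card : ℝ) := by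
    have k5 : ∑ p ∈ (Finset.Ioc (N / 2) N).filter (fun p : ℕ => p.Prime ∧
        ∃ P : Ideal (𝓞 K), Ideal.absNorm P = p), (Nat.card (𝓞 K →+* ZMod p) : ℝ) =
        ∑ p ∈ (Finset.Ioc (N / 2) N).filter Nat.Prime, (Nat.card (𝓞 K →+* ZMod p) : ℝ) := by
      apply Finset.sum_subset
      · intro p hp
        rw [mem_filter] at hp ⊢
        exact ⟨hp.1, hp.2.1⟩
      · intro p hp hp'
        rw [mem_filter] at hp hp'
        by_contra hne
        apply hp'
        refine ⟨hp.1, hp.2, DEG1X.ideal_of_card K ?_⟩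
        intro h0
        apply hne
        rw [h0, Nat.cast_zero]
    rw [← k5]
    calc ∑ p ∈ (Finset.Ioc (N / 2) N).filter (fun p : ℕ => p.Prime ∧
          ∃ P : Ideal (𝓞 K), Ideal.absNorm P = p), (Nat.card (𝓞 K →+* ZMod p) : ℝ)
        ≤ ∑ p ∈ (Finset.Ioc (N / 2) N).filter (fun p : ℕ => p.Prime ∧
          ∃ P : Ideal (𝓞 K), Ideal.absNorm P = p), d := by
          apply Finset.sum_le_sum
          intro p hp
          rw [mem_filter] at hp
          exact H332.PIT.hc_cast_le hp.2.1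
      _ = _ := by rw [Finset.sum_const, nsmul_eq_mul, mul_comm]
  have k6 := k3.trans k4
  have e : 3 / (10 * d) * (N : ℝ) / Real.log N = (3 / 10 * (N : ℝ) / Real.log N) / d := by
    field_simp
  rw [e, div_le_iff₀ hd0]
  exact k6.trans (le_of_eq (mul_comm _ _))

end Pool.Agent.H525.ISO
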