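import Mathlib

set_option autoImplicit false

/-! # Statements used for isolated primes in number fields (helper525)

Only definitions of propositions; each is proved in a separate file. -/

namespace Pool.Agent.H525.ISO

open Finset NumberField Filter

open scoped Classical

/-- UNIT. The number of generators of an ideal in a box.

Proof. We may assume that `S` has an element `x₀`; then `N = |N(x₀)| = absNorm I ≤ B ^ d` and for each infinite
place (embedding) `|σ x₀| ≥ N / B ^ (d - 1)`, as the product of all `|σ x₀|` is `N`. Each `x ∈ S` is `u x₀` with a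
unit `u`, and `|log |σ u|| ≤ D` with `D = log (B ^ d / N)`. There are only finitely many units with
`|log |σ u|| ≤ 1` for all `σ`, say `N₁` (`NumberField.Embeddings.finite_of_norm_le`).  The map
`u ↦ (⌊log |σ u|⌋)_σ` has at most `(2 D + 3) ^ d` values, and two units `u, u'` with the same value have a quotient
with `|log |σ (u / u')|| ≤ 1`, so that its fibres have at most `N₁` elements. Hence
`|S| ≤ N₁ (2 D + 3) ^ d ≤ C exp (D / 2)`. -/
def S_UNIT : Prop := ∀ (K : Type) [Field K] [NumberField K], ∃ C : ℝ, 1 ≤ C ∧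
  ∀ (S : Finset (𝓞 K)) (I : Ideal (𝓞 K)) (B : ℝ), 1 ≤ B → I ≠ ⊥ →
    (∀ x ∈ S, Ideal.span {x} = I ∧ ∀ σ : K →ₐ[ℚ] ℂ, ‖σ (x : K)‖ ≤ B) →
    (S.card : ℝ) ≤ C * Real.sqrt (B ^ Module.finrank ℚ K / Ideal.absNorm I)

/-- COIN. Two different prime ideals of degree one above the same prime number, modulo which `x` is congruent to the
same integer.

Proof. Let `ω` be a `ℤ`-basis of `𝓞 K` indexed by `Fin d` (for instance
`(RingOfIntegers.basis K).reindex _`) and `M` the integral matrix of the coordinates of `1, x, …, x ^ (d - 1)`.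
By `Algebra.discr_of_matrix_mulVec` (or `discr_of_matrix_vecMul`) the discriminant of `1, x, …, x ^ (d - 1)` is
`(det M) ^ 2` times the discriminant of `K`, and it is the square of the Vandermonde determinant of the `σ x`
(`Algebra.discr_eq_det_embeddingsMatrixReindex_pow_two`, `Matrix.det_vandermonde`), so it is not zero and at most
`(2 B) ^ (d (d - 1))` in absolute value. Take `D = |det M|`; `(det M) ^ 2 ≤ (2 B) ^ (d (d - 1))` as the discriminant
of `K` is a nonzero integer. By the adjugate matrix `(det M) t` is a polynomial in `x` with integral coefficients for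
every `t ∈ 𝓞 K`. Let `p = absNorm P = absNorm P'` and suppose that `p` does not divide `det M`. The quotients by `P`
and `P'` are fields with `p` elements, and `x` is congruent to `r` modulo both. For `t ∈ P` write
`(det M) t = f(x)`; then `f(r) ∈ P`, so `p ∣ f(r)`, so `f(x) ∈ P'` (`f(x) - f(r)` is a multiple of `x - r`),
so `t ∈ P'`. Hence `P ⊆ P'`, and `P = P'` as both have the same norm (or as `P` is maximal). -/
def S_COIN : Prop := ∀ (K : Type) [Field K] [NumberField K], ∃ (C : ℝ) (m : ℕ), 1 ≤ C ∧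
  ∀ (x : 𝓞 K) (B : ℝ), 1 ≤ B → (∀ σ : K →ₐ[ℚ] ℂ, ‖σ (x : K)‖ ≤ B) →
    (∀ σ τ : K →ₐ[ℚ] ℂ, σ ≠ τ → σ (x : K) ≠ τ (x : K)) →
    ∃ D : ℕ, D ≠ 0 ∧ (D : ℝ) ≤ C * B ^ m ∧ ∀ (P P' : Ideal (𝓞 K)) (r : ℤ),
      (Ideal.absNorm P).Prime → Ideal.absNorm P' = Ideal.absNorm P → P ≠ P' →
      x - (r : 𝓞 K) ∈ P → x - (r : 𝓞 K) ∈ P' → Ideal.absNorm P ∣ D

/-- DEG1. There are many prime numbers between `N / 2` and `N` which are norms of ideals.

Proof. The prime ideal theorem is in the library: `Pool.Agent.H484R2.pit`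
(`team-store fetch /workdir/pool Pool/Graph/R_seed8/H484R2/Pit.lean`, definition `PIT` in `H484R2/Mean.lean`): the sum
of the numbers `hc(p) = Nat.card (𝓞 K →+* ZMod p)` over the primes `p ≤ N` is asymptotic to `π(N)`. Prime number
theorem: `Pool.Agent.Helper923.PNT.pi_tendsto` (imported there, used in `H332R2/PIT/Main.lean`). So the sum of `hc(p)`
over `N / 2 < p ≤ N` is asymptotic to `N / (2 log N)`; `hc(p) ≤ d` (`H332.PIT.hc_cast_le`), and if `hc(p) ≠ 0` the
kernel of a homomorphism to `ZMod p` is an ideal with norm `p` (it is surjective: `ZMod.ringHom_surjective`; see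
`card_homs` in `Pool/Agent/H525/NF/Mert.lean` on main). -/
def S_DEG1 : Prop := ∀ (K : Type) [Field K] [NumberField K], ∃ c : ℝ, 0 < c ∧ ∃ N₀ : ℕ, ∀ N : ℕ, N₀ ≤ N →
  c * (N : ℝ) / Real.log N ≤
    (((Finset.Ioc (N / 2) N).filter (fun p : ℕ => p.Prime ∧
      ∃ P : Ideal (𝓞 K), Ideal.absNorm P = p)).card : ℝ)

/-- COORD. The coordinates with respect to an integral basis are bounded by the embeddings.

Proof. For instance: the embeddings matrix `(σ (b i))` is invertible (its determinant squared is the discriminant,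
`Algebra.discr_eq_det_embeddingsMatrixReindex_pow_two`, `NumberField.discr_ne_zero`; for a general `b` see
`Algebra.discr_not_zero_of_basis` applied to the `ℚ`-basis `b.localizationLocalization ℚ _ K`), and the
coordinates are obtained by multiplying the vector `(σ x)` with the inverse matrix. -/
def S_COORD : Prop := ∀ (K : Type) [Field K] [NumberField K] (ι : Type) [Fintype ι]
  (b : Module.Basis ι ℤ (𝓞 K)), ∃ C : ℝ, 1 ≤ C ∧ ∀ (x : ι → ℤ) (B : ℝ),
    (∀ σ : K →ₐ[ℚ] ℂ, ‖σ ((∑ i, x i • b i : 𝓞 K) : K)‖ ≤ B) → ∀ i, |(x i : ℝ)| ≤ C * B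

/-- the product of the primes up to `y` which are neither `p₀` nor divisors of `q` -/
def PM (q y p₀ : ℕ) : ℕ := ∏ p ∈ (Finset.Icc 1 y).filter (fun p => p.Prime ∧ ¬ p ∣ q ∧ p ≠ p₀), p

/-- PAGE. Primes in the residue classes modulo `q` times the primes up to a small multiple of `log X`, one prime
left out.

Proof. Library: `Pool.Agent.R529.FT.page`
(`team-store fetch /workdir/pool Pool/Graph/R_pool_sql_team_seeded_b0a926ef/R529/LG/Cov.lean`, or only
`R529/FT/First.lean`): with `B = 1`, `z = ⌊X ^ (1 / K)⌋` there is `q₁ > log z` such that every reduced class `b` to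
every modulus `m ≤ z ^ (1 / 16)` not divisible by `q₁` satisfies `∑ 1 / p ≥ c / φ(m)` over the primes `p ≡ b (mod m)` in
`(z, z ^ K]`. Take `m = q * PM q y p₀`, `y ≤ c' log X`, which is at most `q 4 ^ y`. For large `z` we have `q₁ > q`, so
`q₁` does not divide `q`: take for `p₀` a prime number with a larger exponent in `q₁` than in `q`. If `p₀ ∣ q`
or not, `p₀` has the same exponent in `q * PM q y p₀` as in `q`, so that `q₁` does not divide `q * PM q y p₀`
(see also `leave_out` in the library). The number of the primes is at least `z` times the sum. -/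
def S_PAGE : Prop := ∀ q : ℕ, 0 < q → ∃ c : ℝ, 0 < c ∧ ∀ᶠ X : ℝ in atTop, ∃ p₀ : ℕ, p₀.Prime ∧
  ∀ y : ℕ, (y : ℝ) ≤ c * Real.log X → ∀ b : ℕ, b.Coprime (q * PM q y p₀) →
    X ^ c ≤ (((Finset.Icc 1 ⌊X⌋₊).filter (fun p : ℕ => p.Prime ∧ X ^ c ≤ (p : ℝ) ∧
      p ≡ b [MOD q * PM q y p₀])).card : ℝ)

end Pool.Agent.H525.ISO
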