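import Pool.Agent.H525.NF.Sieve
import Pool.Agent.H525.ISO.Stm

set_option autoImplicit false
set_option linter.unusedSectionVars false

/-! # A sum over prime ideals -/

namespace Pool.Agent.H525.ISO

open Finset NumberField Filter
open Pool.Agent.H474R2.PG
open Pool.Agent.H525.NF

open scoped Classical

variable {K : Type} [Field K] [NumberField K]

theorem theta_PR (Y : ℝ) (hY : 0 ≤ Y) : ∑ p ∈ PR Y, Real.log p ≤ Real.log 4 * Y := by
  refine le_trans (le_of_eq ?_) (Chebyshev.theta_le_log4_mul_x hY)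
  unfold Chebyshev.theta
  apply Finset.sum_congr _ (fun _ _ => rfl)
  ext p
  rw [mem_PR, mem_filter, mem_Ioc]
  constructor
  · rintro ⟨h1, h2⟩
    exact ⟨⟨h1.pos, Nat.le_floor h2⟩, h1⟩
  · rintro ⟨⟨_, h2⟩, h1⟩
    exact ⟨h1, (Nat.le_floor_iff hY).1 h2⟩

theorem sum_log_sqrt (n : ℕ) : ∀ Y : ℝ, 0 ≤ Y → Y ≤ 2 ^ n →
    ∑ p ∈ PR Y, Real.log p * Real.sqrt (Y / p) ≤ 7 * Y := by
  induction n with
  | zero =>
    intro Y hY hY1
    have h1 : PR Y = ∅ := by
      rw [Finset.eq_empty_iff_forall_notMem]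
      intro p hp
      rw [mem_PR] at hp
      have h2 : (2:ℝ) ≤ p := by exact_mod_cast hp.1.two_le
      rw [pow_zero] at hY1
      linarith [hp.2]
    rw [h1, Finset.sum_empty]
    positivity
  | succ n ih =>
    intro Y hY hY1
    have ih' := ih (Y / 2) (by linarith) (by rw [pow_succ] at hY1; linarith)
    have hs2 : Real.sqrt 2 ≤ 1.42 := by
      rw [show (1.42:ℝ) = Real.sqrt (1.42 ^ 2) by rw [Real.sqrt_sq (by norm_num)]]
      apply Real.sqrt_le_sqrt
      norm_num
    have hs20 : 0 ≤ Real.sqrt 2 := Real.sqrt_nonneg _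
    rw [← Finset.sum_filter_add_sum_filter_not (PR Y) (fun p : ℕ => (p:ℝ) ≤ Y / 2)]
    have h1 : ∑ p ∈ (PR Y).filter (fun p : ℕ => (p:ℝ) ≤ Y / 2), Real.log p * Real.sqrt (Y / p) =
        Real.sqrt 2 * ∑ p ∈ PR (Y / 2), Real.log p * Real.sqrt (Y / 2 / p) := by
      rw [Finset.mul_sum]
      apply Finset.sum_congr
      · ext p
        rw [mem_filter, mem_PR, mem_PR]
        constructor
        · rintro ⟨⟨h, _⟩, h'⟩
          exact ⟨h, h'⟩
        · rintro ⟨h, h'⟩
          exact ⟨⟨h, by linarith⟩, h'⟩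
      · intro p _
        have h2 : Y / p = 2 * (Y / 2 / p) := by ring
        rw [h2, Real.sqrt_mul (by norm_num)]
        ring
    have h2 : ∑ p ∈ (PR Y).filter (fun p : ℕ => ¬ (p:ℝ) ≤ Y / 2),
        Real.log p * Real.sqrt (Y / p) ≤ Real.sqrt 2 * (Real.log 4 * Y) := by
      have h3 : ∀ p ∈ (PR Y).filter (fun p : ℕ => ¬ (p:ℝ) ≤ Y / 2),
          Real.log p * Real.sqrt (Y / p) ≤ Real.sqrt 2 * Real.log p := by
        intro p hp
        rw [mem_filter, mem_PR, not_le] at hp
        have hp0 : (0:ℝ) < p := by exact_mod_cast hp.1.1.pos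
        have h4 : Y / p ≤ 2 := by rw [div_le_iff₀ hp0]; linarith [hp.2]
        have h5 := Real.sqrt_le_sqrt h4
        have h6 : 0 ≤ Real.log p := Real.log_natCast_nonneg p
        nlinarith
      refine (Finset.sum_le_sum h3).trans ?_
      rw [← Finset.mul_sum]
      apply mul_le_mul_of_nonneg_left _ hs20
      refine le_trans ?_ (theta_PR Y hY)
      exact Finset.sum_le_sum_of_subset_of_nonneg (Finset.filter_subset _ _)
        (fun p _ _ => Real.log_natCast_nonneg p)
    rw [h1]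
    have h4 : Real.log 4 ≤ 1.3864 := by
      have h5 : Real.log 4 = 2 * Real.log 2 := by
        rw [show (4:ℝ) = 2 ^ 2 by norm_num, Real.log_pow]
        norm_num
      rw [h5]
      have := Real.log_two_lt_d9
      linarith
    have h5 : Real.sqrt 2 * ∑ p ∈ PR (Y / 2), Real.log p * Real.sqrt (Y / 2 / p) ≤
        1.42 * (7 * (Y / 2)) := mul_le_mul hs2 ih' (Finset.sum_nonneg (fun p _ =>
          mul_nonneg (Real.log_natCast_nonneg p) (Real.sqrt_nonneg _))) (by norm_num)
    have h6 : Real.sqrt 2 * (Real.log 4 * Y) ≤ 1.42 * (1.3864 * Y) := by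
      apply mul_le_mul hs2 (mul_le_mul_of_nonneg_right h4 hY)
      · have : 0 ≤ Real.log 4 := Real.log_nonneg (by norm_num)
        positivity
      · norm_num
    linarith

theorem sum_PI_sqrt (y Y : ℝ) (hy : 2 ≤ y) (hY : 0 ≤ Y) :
    ∑ P ∈ PI K y Y, Real.sqrt (Y / Ideal.absNorm P) ≤
      Module.finrank ℚ K * (7 * Y / Real.log y) := by
  have h1 := sum_PI_le (K := K) (a := y) (b := Y) (φ := fun p => Real.sqrt (Y / p))
    (fun p => Real.sqrt_nonneg _)
  refine h1.trans ?_
  apply mul_le_mul_of_nonneg_left _ (Nat.cast_nonneg _)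
  have hly : 0 < Real.log y := Real.log_pos (by linarith)
  rw [le_div_iff₀ hly, Finset.sum_mul]
  obtain ⟨n, hn⟩ := pow_unbounded_of_one_lt Y (show (1:ℝ) < 2 by norm_num)
  refine le_trans ?_ (sum_log_sqrt n Y hY hn.le)
  refine le_trans (Finset.sum_le_sum (fun p hp => ?_) : _ ≤ ∑ p ∈ (PR Y).filter
    (fun p : ℕ => y < p), Real.log p * Real.sqrt (Y / p)) ?_
  · rw [mem_filter, mem_PR] at hp
    rw [mul_comm]
    exact mul_le_mul_of_nonneg_right (Real.log_le_log (by linarith) hp.2.le) (Real.sqrt_nonneg _)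
  · exact Finset.sum_le_sum_of_subset_of_nonneg (Finset.filter_subset _ _)
      (fun p _ _ => mul_nonneg (Real.log_natCast_nonneg p) (Real.sqrt_nonneg _))

end Pool.Agent.H525.ISO
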