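import Pool.Agent.H525.ISO.Cover
import Pool.Agent.H525.ISO.Unit
import Pool.Agent.H525.ISO.Coin
import Pool.Agent.H525.ISO.Coord
import Pool.Agent.H525.ISO.Deg
import Pool.Agent.H525.ISO.Page

set_option autoImplicit false
set_option linter.unusedSectionVars false

/-! # Isolated primes in number fields -/

namespace Pool.Agent.H525.ISO

open Finset NumberField Filter
open Pool.Agent.H525.NF

open scoped Classical

/-- the function of Rankin -/
noncomputable def rk (X : ℝ) : ℝ :=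
  Real.log X * Real.log (Real.log X) * Real.log (Real.log (Real.log (Real.log X))) /
    Real.log (Real.log (Real.log X)) ^ 2

/-- the class modulo `q` times the product of the primes -/
theorem exists_class (q y p₀ a : ℕ) (ha : a.Coprime q) (b : ℕ → ℕ)
    (hb : ∀ ℓ : ℕ, ℓ.Prime → ¬ ℓ ∣ b ℓ) : ∃ B : ℕ, B.Coprime (q * PM q y p₀) ∧
      B ≡ a [MOD q] ∧ ∀ ℓ : ℕ, ℓ.Prime → ℓ ≤ y → ¬ ℓ ∣ q → ℓ ≠ p₀ → B ≡ b ℓ [MOD ℓ] := by
  set S := (Finset.Icc 1 y).filter (fun p => p.Prime ∧ ¬ p ∣ q ∧ p ≠ p₀) with hS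
  have hSp : ∀ p ∈ S, p.Prime ∧ ¬ p ∣ q := fun p hp => by
    rw [hS, mem_filter] at hp
    exact ⟨hp.2.1, hp.2.2.1⟩
  obtain ⟨k, hk⟩ := Nat.chineseRemainderOfFinset b (fun p => p) S
    (fun p hp => (hSp p hp).1.ne_zero) (by
      intro p hp p' hp' hne
      exact (Nat.coprime_primes (hSp p hp).1 (hSp p' hp').1).2 hne)
  have hco : q.Coprime (PM q y p₀) := by
    unfold PM
    apply Nat.Coprime.prod_right
    intro p hp
    exact ((Nat.Prime.coprime_iff_not_dvd (hSp p hp).1).2 (hSp p hp).2).symm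
  obtain ⟨B, hB1, hB2⟩ := Nat.chineseRemainder hco a k
  have hBℓ : ∀ p ∈ S, B ≡ b p [MOD p] := by
    intro p hp
    have h1 : p ∣ PM q y p₀ := Finset.dvd_prod_of_mem _ hp
    exact (hB2.of_dvd h1).trans (hk p hp)
  refine ⟨B, ?_, hB1, ?_⟩
  · apply Nat.Coprime.mul_right
    · have := hB1.gcd_eq
      unfold Nat.Coprime at ha ⊢
      rw [this, ha]
    · unfold PM
      apply Nat.Coprime.prod_right
      intro p hp
      rw [Nat.coprime_comm]
      refine (Nat.Prime.coprime_iff_not_dvd (hSp p hp).1).2 ?_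
      intro h
      exact hb p (hSp p hp).1 ((Nat.ModEq.dvd_iff (hBℓ p hp) dvd_rfl).1 h)
  · intro ℓ h1 h2 h3 h4
    apply hBℓ
    rw [hS, mem_filter, mem_Icc]
    exact ⟨⟨h1.one_lt.le, h2⟩, h1, h3, h4⟩

variable {K : Type} [Field K] [NumberField K]

/-- the prime number below divides the norm -/
theorem dvd_norm {P : Ideal (𝓞 K)} (hP : P.IsPrime) {ℓ : ℕ} (hℓ : ℓ.Prime)
    (h : ((ℓ : ℕ) : 𝓞 K) ∈ P) {x : 𝓞 K} (hx : x ∈ P) : (ℓ : ℤ) ∣ Algebra.norm ℤ x := by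
  have h1 := Ideal.absNorm_dvd_norm_of_mem h
  have h2 := Ideal.absNorm_dvd_norm_of_mem hx
  have h3 : Algebra.norm ℤ ((ℓ : ℕ) : 𝓞 K) = (ℓ : ℤ) ^ Module.finrank ℤ (𝓞 K) := by
    have := Algebra.norm_algebraMap (R := ℤ) (S := 𝓞 K) (ℓ : ℤ)
    rw [← this]
    congr 1
    simp
  rw [h3] at h1
  have h4 : Ideal.absNorm P ∣ ℓ ^ Module.finrank ℤ (𝓞 K) := by exact_mod_cast h1
  obtain ⟨k, -, hk⟩ := (Nat.dvd_prime_pow hℓ).1 h4
  have h5 : k ≠ 0 := by
    intro h0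
    rw [h0, pow_zero] at hk
    exact hP.ne_top (Ideal.absNorm_eq_one_iff.1 hk)
  have h6 : ℓ ∣ Ideal.absNorm P := by
    rw [hk]
    exact dvd_pow_self _ h5
  exact (Int.natCast_dvd_natCast.2 h6).trans h2

/-- an element of a prime ideal which is too large is not prime -/
theorem not_prime_of {P : Ideal (𝓞 K)} (hP : P.IsPrime) {ℓ : ℕ} (hℓ : ℓ.Prime)
    (h : ((ℓ : ℕ) : 𝓞 K) ∈ P) {x : 𝓞 K} (hx : x ∈ P)
    (hbig : (ℓ : ℝ) ^ Module.finrank ℚ K < |((Algebra.norm ℤ x : ℤ) : ℝ)|) : ¬ Prime x := by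
  intro hpr
  have h1 : (Ideal.span {x}).IsPrime := (Ideal.span_singleton_prime hpr.ne_zero).2 hpr
  have h2 : Ideal.span {x} ≠ ⊥ := by
    rw [Ne, Ideal.span_singleton_eq_bot]
    exact hpr.ne_zero
  have h3 : (Ideal.span {x}).IsMaximal := h1.isMaximal h2
  have h4 : Ideal.span {x} = P := h3.eq_of_le hP.ne_top (by
    rw [Ideal.span_singleton_le_iff_mem]
    exact hx)
  rw [← h4, Ideal.mem_span_singleton] at h
  have h5 : Algebra.norm ℤ x ∣ Algebra.norm ℤ ((ℓ : ℕ) : 𝓞 K) := map_dvd _ h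
  have h3 : Algebra.norm ℤ ((ℓ : ℕ) : 𝓞 K) = (ℓ : ℤ) ^ Module.finrank ℤ (𝓞 K) := by
    have := Algebra.norm_algebraMap (R := ℤ) (S := 𝓞 K) (ℓ : ℤ)
    rw [← this]
    congr 1
    simp
  rw [h3] at h5
  have h6 : (0:ℤ) < (ℓ : ℤ) ^ Module.finrank ℤ (𝓞 K) := by
    have : (0:ℤ) < ℓ := by exact_mod_cast hℓ.pos
    positivity
  have h7 := Int.le_of_dvd h6 ((abs_dvd _ _).2 h5)
  rw [RingOfIntegers.rank] at h7
  have h8 : |((Algebra.norm ℤ x : ℤ) : ℝ)| ≤ (ℓ : ℝ) ^ Module.finrank ℚ K := by exact_mod_cast h7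
  linarith

/-- lower bound for the norm -/
theorem norm_lower (p : ℕ) (γ : 𝓞 K) (t : ℝ) (ht : t ≤ p) (h : ∀ σ : K →ₐ[ℚ] ℂ, ‖σ (γ : K)‖ ≤ t) :
    ((p : ℝ) - t) ^ Module.finrank ℚ K ≤ |((Algebra.norm ℤ ((p : 𝓞 K) + γ) : ℤ) : ℝ)| := by
  rw [norm_eq, ← card_emb (K := K), ← Finset.card_univ, ← Finset.prod_const]
  apply Finset.prod_le_prod (fun _ _ => by linarith)
  intro σ _
  have h1 : σ (((p : 𝓞 K) + γ : 𝓞 K) : K) = (p : ℂ) + σ (γ : K) := by
    push_cast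
    rw [map_add, map_natCast]
  rw [h1]
  have h2 := norm_sub_le ((p : ℂ) + σ (γ : K)) (σ (γ : K))
  rw [add_sub_cancel_right, Complex.norm_natCast] at h2
  linarith [h σ]

/-- the asymptotic inequalities -/
theorem ev_final (c₃ B : ℝ) : ∀ᶠ X : ℝ in atTop, ∀ L1 L2 L3 L4 : ℝ,
    L1 = Real.log X → L2 = Real.log L1 → L3 = Real.log L2 → L4 = Real.log L3 →
    B ≤ L1 ∧ 1 ≤ L4 ∧ 2 * (-Real.log c₃) ≤ L2 ∧ 2 ≤ L3 ∧ 4 ≤ L4 := by
  have h1 : Tendsto (fun X : ℝ => Real.log X) atTop atTop := Real.tendsto_log_atTop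
  have h2 : Tendsto (fun X : ℝ => Real.log (Real.log X)) atTop atTop :=
    Real.tendsto_log_atTop.comp h1
  have h3 : Tendsto (fun X : ℝ => Real.log (Real.log (Real.log X))) atTop atTop :=
    Real.tendsto_log_atTop.comp h2
  have h4 : Tendsto (fun X : ℝ => Real.log (Real.log (Real.log (Real.log X)))) atTop atTop :=
    Real.tendsto_log_atTop.comp h3
  filter_upwards [h1.eventually_ge_atTop B, h2.eventually_ge_atTop (2 * (-Real.log c₃)),
    h3.eventually_ge_atTop 2, h4.eventually_ge_atTop 4] with X e1 e2 e3 e4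
  intro L1 L2 L3 L4 g1 g2 g3 g4
  subst g1
  subst g2
  subst g3
  subst g4
  exact ⟨e1, by linarith, e2, e3, e4⟩

/-- comparison of the functions of Rankin in `X` and in `Y` -/
theorem compare (c₃ L1 L2 L3 L4 Y l1 l2 l3 : ℝ) (hc₃ : 0 < c₃)
    (g2 : L2 = Real.log L1) (g3 : L3 = Real.log L2) (g4 : L4 = Real.log L3)
    (hl1 : l1 = Real.log Y) (hl2 : l2 = Real.log l1) (hl3 : l3 = Real.log l2)
    (e0 : 1 ≤ L1) (e1 : 2 * (-Real.log c₃) ≤ L2) (e3 : 2 ≤ L3) (e4 : 4 ≤ L4)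
    (hY1 : c₃ * L1 ≤ Y) (hY2 : Y ≤ L1) :
    L1 * L2 * L4 / L3 ^ 2 ≤ 4 / c₃ * (Y * l1 * l3 / l2 ^ 2) := by
  have hL1 : 0 < L1 := by linarith
  have hY0 : 0 < Y := lt_of_lt_of_le (by positivity) hY1
  have hlog2 : Real.log 2 ≤ 1 := by
    have := Real.log_two_lt_d9
    linarith
  have hL2e : Real.exp 2 ≤ L2 := by
    have hL2pos : 0 < L2 := by
      by_contra hcon
      push Not at hcon
      have hle : L3 ≤ 0 := by
        rw [g3]
        rcases lt_or_ge L2 (-1) with h | h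
        · -- impossible since `L1 ≥ 1` gives `L2 ≥ 0`
          have : 0 ≤ L2 := by rw [g2]; exact Real.log_nonneg e0
          linarith
        · have : 0 ≤ L2 := by rw [g2]; exact Real.log_nonneg e0
          have h0 : L2 = 0 := le_antisymm hcon this
          rw [h0, Real.log_zero]
      linarith
    rw [← Real.exp_log hL2pos, ← g3]
    exact Real.exp_le_exp.2 e3
  have hL2_3 : 3 ≤ L2 := by
    have := Real.add_one_le_exp (2:ℝ)
    linarith
  -- lower bound for `l1`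
  have hl1lo : L2 / 2 ≤ l1 := by
    have h1 := Real.log_le_log (by positivity) hY1
    rw [Real.log_mul hc₃.ne' hL1.ne', ← g2, ← hl1] at h1
    linarith
  have hl1hi : l1 ≤ L2 := by
    rw [hl1, g2]
    exact Real.log_le_log hY0 hY2
  have hl1pos : 0 < l1 := by linarith
  have hl2lo : L3 - 1 ≤ l2 := by
    have h1 := Real.log_le_log (by positivity) hl1lo
    rw [Real.log_div (by linarith) (by norm_num), ← g3, ← hl2] at h1
    linarith
  have hl2hi : l2 ≤ L3 := by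
    rw [hl2, g3]
    exact Real.log_le_log hl1pos hl1hi
  have hL3_5 : Real.exp 4 ≤ L3 := by
    rw [← Real.exp_log (show (0:ℝ) < L3 by linarith), ← g4]
    exact Real.exp_le_exp.2 e4
  have hl2pos : 0 < l2 := by linarith
  have hl3lo : L4 - 1 ≤ l3 := by
    have h0 : L3 / 2 ≤ l2 := by linarith
    have h1 := Real.log_le_log (by linarith) h0
    rw [Real.log_div (by linarith) (by norm_num), ← g4, ← hl3] at h1
    linarith
  have hl3pos : 0 < l3 := by linarith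
  have hL4 : L4 ≤ 2 * l3 := by linarith
  have hL3pos : 0 < L3 := by linarith
  have h1 : L1 * L2 * L4 ≤ (Y / c₃) * (2 * l1) * (2 * l3) := by
    have a1 : L1 ≤ Y / c₃ := by rw [le_div_iff₀ hc₃]; linarith
    have a2 : L2 ≤ 2 * l1 := by linarith
    have a3 : L1 * L2 ≤ (Y / c₃) * (2 * l1) :=
      mul_le_mul a1 a2 (by linarith) (by positivity)
    exact mul_le_mul a3 hL4 (by linarith) (by positivity)
  have h2 : L1 * L2 * L4 / L3 ^ 2 ≤ (Y / c₃) * (2 * l1) * (2 * l3) / l2 ^ 2 := by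
    apply div_le_div₀ (by positivity) h1 (by positivity)
    exact pow_le_pow_left₀ hl2pos.le hl2hi 2
  refine h2.trans (le_of_eq ?_)
  field_simp
  ring

/-- powers of the logarithm are small -/
theorem ev_pow (cp c : ℝ) (hcp : 0 < cp) (hc : 0 < c) : ∀ᶠ X : ℝ in atTop,
    1 + c * Real.log X ^ 3 + Real.log X < X ^ cp := by
  set A : ℝ := 1 + c / cp ^ 3 + 1 / cp with hA
  have hA0 : 0 < A := by positivity
  have h1 := (Real.isLittleO_pow_exp_atTop (n := 3)).def (show (0:ℝ) < 1 / (A + 1) by positivity)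
  have h2 : Tendsto (fun X : ℝ => cp * Real.log X) atTop atTop :=
    Real.tendsto_log_atTop.const_mul_atTop hcp
  filter_upwards [h2.eventually h1, h2.eventually_ge_atTop 1, eventually_gt_atTop 0] with X e1 e2 e3
  set u : ℝ := cp * Real.log X with hu
  have hu0 : 0 < u := by linarith
  rw [Real.norm_of_nonneg (by positivity), Real.norm_of_nonneg (Real.exp_pos _).le,
    div_mul_eq_mul_div, one_mul, le_div_iff₀ (by positivity)] at e1
  have h3 : X ^ cp = Real.exp u := by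
    rw [Real.rpow_def_of_pos e3, hu, mul_comm]
  rw [h3]
  have h4 : Real.log X = u / cp := by rw [hu]; field_simp
  have hu3 : 1 ≤ u ^ 3 := one_le_pow₀ e2
  have hu1 : u ≤ u ^ 3 := by nlinarith only [e2, mul_nonneg hu0.le hu0.le, sq_nonneg (u - 1), sq_nonneg u]
  have h5 : 1 + c * Real.log X ^ 3 + Real.log X ≤ A * u ^ 3 := by
    rw [h4, hA, add_mul, add_mul, one_mul, div_pow]
    have g1 : c * (u ^ 3 / cp ^ 3) = c / cp ^ 3 * u ^ 3 := by ring
    have g2 : u / cp ≤ 1 / cp * u ^ 3 := by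
      rw [one_div, div_eq_inv_mul]
      exact mul_le_mul_of_nonneg_left hu1 (by positivity)
    linarith
  nlinarith only [h5, e1, hu3]

theorem final (K : Type) [Field K] [NumberField K] (q a : ℕ) (hq : 0 < q) (ha : a.Coprime q) :
    ∃ c : ℝ, 0 < c ∧ ∀ᶠ X : ℝ in atTop,
      X ^ c ≤ (((Finset.Icc 1 ⌊X⌋₊).filter (fun p : ℕ => p.Prime ∧ p ≡ a [MOD q] ∧
        ∀ γ : 𝓞 K, γ ≠ 0 →
          (∀ σ : K →+* ℂ, ‖σ (γ : K)‖ ^ Module.finrank ℚ K ≤ c * rk X) →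
          ¬ Prime ((p : 𝓞 K) + γ) ∧ ∃ ℓ : ℕ, ℓ.Prime ∧ (ℓ : ℝ) ≤ Real.log X ∧
            (ℓ : ℤ) ∣ Algebra.norm ℤ ((p : 𝓞 K) + γ))).card : ℝ) := by
  set bs := RingOfIntegers.basis K with hbs
  obtain ⟨C₂, hC₂, hcoord⟩ := Coord.t_COORD K _ bs
  have hcard : Fintype.card (Module.Free.ChooseBasisIndex ℤ (𝓞 K)) = Module.finrank ℚ K := by
    rw [← Module.finrank_eq_card_chooseBasisIndex, RingOfIntegers.rank]
  have hth : ∀ t : 𝓞 K, th (fun i => bs i) (fun i => bs.repr t i) = t := by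
    intro t
    rw [th_apply]
    exact bs.sum_repr t
  obtain ⟨c₁, y₀, hc₁, hcov⟩ := cover Unit.t_UNIT Coin.t_COIN t_DEG1 (fun i => bs i)
    bs.linearIndependent hcard (fun t => ⟨_, hth t⟩) q.primeFactors
    (fun p hp => Nat.prime_of_mem_primeFactors hp)
  obtain ⟨cp, hcp, hpage⟩ := t_PAGE q hq
  set d := Module.finrank ℚ K with hd
  have hd0 : 0 < d := Module.finrank_pos
  set c₄ : ℝ := min cp 1 with hc₄
  have hc₄0 : 0 < c₄ := lt_min hcp one_pos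
  have hc₄1 : c₄ ≤ 1 := min_le_right _ _
  have hc₄p : c₄ ≤ cp := min_le_left _ _
  set c₃ : ℝ := c₄ / 3 with hc₃
  have hc₃0 : 0 < c₃ := by positivity
  set c : ℝ := min cp (c₁ * c₃ / (4 * C₂ ^ d)) with hc
  have hC₂0 : 0 < C₂ := by linarith
  have hc0 : 0 < c := lt_min hcp (by positivity)
  refine ⟨c, hc0, ?_⟩
  filter_upwards [hpage, ev_final c₃ (1 + 6 / c₄ + 4 * (y₀ + 1) / c₄), ev_pow cp c hcp hc0,
    eventually_ge_atTop 1] with X hX1 hX2 hX3 hX4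
  obtain ⟨e1, e2, e3, e4, e5⟩ := hX2 _ _ _ _ rfl rfl rfl rfl
  obtain ⟨p₀, hp₀, hcount⟩ := hX1
  set L1 := Real.log X with hL1
  set y : ℕ := ⌊c₄ * L1⌋₊ with hy
  have hL11 : 1 ≤ L1 := by
    have h1 : 0 ≤ 6 / c₄ := by positivity
    have h2 : 0 ≤ 4 * ((y₀ : ℝ) + 1) / c₄ := by positivity
    linarith
  have hcL : 0 ≤ c₄ * L1 := by positivity
  have hyle : (y : ℝ) ≤ c₄ * L1 := Nat.floor_le hcL
  have hygt : c₄ * L1 < y + 1 := Nat.lt_floor_add_one _
  have hyL : (y : ℝ) ≤ L1 := hyle.trans (by nlinarith only [hc₄1, hL11])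
  have hL6 : 6 ≤ c₄ * L1 := by
    have h2 : 0 ≤ 4 * ((y₀ : ℝ) + 1) / c₄ := by positivity
    have h3 : 6 / c₄ ≤ L1 := by linarith
    rw [div_le_iff₀ hc₄0] at h3
    linarith
  have hy₀ : y₀ ≤ y := by
    have h1 : 0 ≤ 6 / c₄ := by positivity
    have h3 : 4 * ((y₀ : ℝ) + 1) / c₄ ≤ L1 := by linarith
    rw [div_le_iff₀ hc₄0] at h3
    have h4 : (y₀ : ℝ) ≤ y := by
      have : (0:ℝ) ≤ y₀ := Nat.cast_nonneg _
      linarith
    exact_mod_cast h4
  set Y : ℝ := ((y / 2 : ℕ) : ℝ) with hY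
  have hY1 : c₃ * L1 ≤ Y := by
    have h1 : (y : ℝ) ≤ 2 * Y + 1 := by
      rw [hY]
      have : y ≤ 2 * (y / 2) + 1 := by omega
      exact_mod_cast this
    rw [hc₃]
    linarith
  have hY2 : Y ≤ L1 := by
    have h1 : Y ≤ y := by rw [hY]; exact_mod_cast Nat.div_le_self _ _
    linarith
  obtain ⟨b, hb1, hb2⟩ := hcov y hy₀ Y _ _ _ hY rfl rfl rfl p₀ hp₀
  obtain ⟨Bc, hB0, hBq, hBℓ⟩ := exists_class q y p₀ a ha b hb1
  have hcnt := hcount y (hyle.trans (mul_le_mul_of_nonneg_right hc₄p (by linarith))) Bc hB0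
  have hXc : X ^ c ≤ X ^ cp := Real.rpow_le_rpow_of_exponent_le hX4 (min_le_left _ _)
  refine (hXc.trans hcnt).trans ?_
  rw [Nat.cast_le]
  apply Finset.card_le_card
  intro p hp
  rw [mem_filter] at hp ⊢
  obtain ⟨hp1, hp2, hp3, hp4⟩ := hp
  refine ⟨hp1, hp2, ?_, ?_⟩
  · exact (hp4.of_dvd (Dvd.intro _ rfl)).trans hBq
  intro γ hγ0 hγ
  have hrk0 : 0 ≤ rk X := by
    unfold rk
    rw [← hL1]
    have : 0 ≤ Real.log L1 := Real.log_nonneg hL11
    positivity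
  have hcrk : 0 ≤ c * rk X := by positivity
  set t : ℝ := (c * rk X) ^ ((d : ℝ)⁻¹) with ht
  have ht0 : 0 ≤ t := Real.rpow_nonneg hcrk _
  have htd : t ^ d = c * rk X := Real.rpow_inv_natCast_pow hcrk hd0.ne'
  have hσ : ∀ σ : K →ₐ[ℚ] ℂ, ‖σ (γ : K)‖ ≤ t := by
    intro σ
    have h1 := hγ σ.toRingHom
    rw [← htd] at h1
    exact le_of_pow_le_pow_left₀ hd0.ne' ht0 h1
  set w : Module.Free.ChooseBasisIndex ℤ (𝓞 K) → ℤ := fun i => bs.repr γ i with hw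
  have hwγ : th (fun i => bs i) w = γ := hth γ
  have hw0 : w ≠ 0 := by
    intro h
    apply hγ0
    rw [← hwγ, h, map_zero]
  have hwr : ∀ i, |((w i : ℤ) : ℝ)| ≤ C₂ * t := by
    apply hcoord w t
    intro σ
    have h1 : (∑ i, w i • bs i : 𝓞 K) = γ := by rw [← th_apply (fun i => bs i), hwγ]
    rw [h1]
    exact hσ σ
  have hrk : rk X ≤ 4 / c₃ * (Y * Real.log Y * Real.log (Real.log (Real.log Y)) /
      Real.log (Real.log Y) ^ 2) := by
    unfold rk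
    rw [← hL1]
    exact compare c₃ L1 _ _ _ Y _ _ _ hc₃0 rfl rfl rfl rfl rfl rfl hL11 e3 e4 e5 hY1 hY2
  have hrd : (C₂ * t) ^ Fintype.card (Module.Free.ChooseBasisIndex ℤ (𝓞 K)) ≤
      c₁ * (Y * Real.log Y * Real.log (Real.log (Real.log Y)) / Real.log (Real.log Y) ^ 2) := by
    rw [hcard, mul_pow, htd]
    have h1 : c ≤ c₁ * c₃ / (4 * C₂ ^ d) := min_le_right _ _
    have h2 : C₂ ^ d * (c * rk X) ≤ C₂ ^ d * (c₁ * c₃ / (4 * C₂ ^ d) * rk X) := by
      apply mul_le_mul_of_nonneg_left _ (by positivity)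
      exact mul_le_mul_of_nonneg_right h1 hrk0
    refine h2.trans ?_
    have h3 : C₂ ^ d * (c₁ * c₃ / (4 * C₂ ^ d) * rk X) = c₁ * c₃ / 4 * rk X := by
      field_simp
    rw [h3]
    have h4 := mul_le_mul_of_nonneg_left hrk (show 0 ≤ c₁ * c₃ / 4 by positivity)
    refine h4.trans (le_of_eq ?_)
    field_simp
  obtain ⟨ℓ, g1, g2, g3, g4, P, g5, g6, g7⟩ := hb2 (C₂ * t) (by positivity) hrd w hw0 hwr
  rw [hwγ] at g7
  have hℓq : ¬ ℓ ∣ q := fun h => g3 (Nat.mem_primeFactors.2 ⟨g1, h, hq.ne'⟩)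
  have hpℓ : p ≡ b ℓ [MOD ℓ] := by
    have h1 : ℓ ∣ PM q y p₀ := by
      unfold PM
      apply Finset.dvd_prod_of_mem (fun p => p)
      rw [mem_filter, mem_Icc]
      exact ⟨⟨g1.one_lt.le, g2⟩, g1, hℓq, g4⟩
    exact (hp4.of_dvd (h1.trans (Dvd.intro_left _ rfl))).trans (hBℓ ℓ g1 g2 hℓq g4)
  have hmem : (p : 𝓞 K) + γ ∈ P := by
    obtain ⟨k, hk⟩ := (Nat.modEq_iff_dvd.1 hpℓ)
    have h1 : (p : 𝓞 K) + γ = ((b ℓ : ℕ) : 𝓞 K) + γ - (ℓ : 𝓞 K) * (k : 𝓞 K) := by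
      have h2 : (((b ℓ : ℤ) - (p : ℤ) : ℤ) : 𝓞 K) = (((ℓ : ℤ) * k : ℤ) : 𝓞 K) := by rw [hk]
      push_cast at h2
      rw [← h2]
      ring
    rw [h1]
    exact P.sub_mem g7 (P.mul_mem_right _ g6)
  have hℓy : (ℓ : ℝ) ≤ L1 := by
    have : (ℓ : ℝ) ≤ y := by exact_mod_cast g2
    linarith
  refine ⟨?_, ℓ, g1, hℓy, dvd_norm g5 g1 g6 hmem⟩
  -- the size
  have htle : t ≤ 1 + c * L1 ^ 3 := by
    by_contra hcon
    push Not at hcon
    have hL13 : 0 ≤ c * L1 ^ 3 := by positivity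
    have h1 : 1 ≤ t := by linarith
    have h2 : t ≤ t ^ d := le_self_pow₀ h1 hd0.ne'
    rw [htd] at h2
    have h3 : rk X ≤ L1 ^ 3 := by
      unfold rk
      rw [← hL1]
      have hL10 : 0 < L1 := by linarith
      have k2 : Real.log L1 ≤ L1 := (Real.log_le_sub_one_of_pos hL10).trans (by linarith)
      have k20 : 0 ≤ Real.log L1 := Real.log_nonneg hL11
      have k3 : Real.log (Real.log L1) ≤ Real.log L1 := by
        rcases eq_or_lt_of_le k20 with h | h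
        · rw [← h, Real.log_zero]
        · exact (Real.log_le_sub_one_of_pos h).trans (by linarith)
      have k4 : Real.log (Real.log (Real.log L1)) ≤ Real.log (Real.log L1) :=
        (Real.log_le_sub_one_of_pos (by linarith)).trans (by linarith)
      rw [div_le_iff₀ (by positivity)]
      have k5 : L1 * Real.log L1 * Real.log (Real.log (Real.log L1)) ≤ L1 * L1 * L1 := by
        apply mul_le_mul (mul_le_mul_of_nonneg_left k2 hL10.le) (by linarith) (by linarith)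
          (by positivity)
      have k6 : (1:ℝ) ≤ Real.log (Real.log L1) ^ 2 := one_le_pow₀ (by linarith)
      have k7 : L1 ^ 3 * 1 ≤ L1 ^ 3 * Real.log (Real.log L1) ^ 2 :=
        mul_le_mul_of_nonneg_left k6 (by positivity)
      calc L1 * Real.log L1 * Real.log (Real.log (Real.log L1)) ≤ L1 * L1 * L1 := k5
        _ = L1 ^ 3 * 1 := by ring
        _ ≤ _ := k7
    have h4 := mul_le_mul_of_nonneg_left h3 hc0.le
    linarith
  have hpt : (ℓ : ℝ) < p - t := by linarith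
  apply not_prime_of g5 g1 g6 hmem
  refine lt_of_lt_of_le ?_ (norm_lower p γ t (by
    have : (0:ℝ) ≤ ℓ := Nat.cast_nonneg _
    linarith) hσ)
  exact pow_lt_pow_left₀ hpt (Nat.cast_nonneg _) hd0.ne'

end Pool.Agent.H525.ISO
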