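import Pool.Agent.H525.ISO.Stm
import Pool.Agent.H525.NF.Surv
import Pool.Agent.H525.AC.Pot

set_option autoImplicit false
set_option linter.unusedSectionVars false

/-! # The classes of the small primes -/

namespace Pool.Agent.H525.ISO

open Finset NumberField Filter
open Pool.Agent.H474R2.PG
open Pool.Agent.H525.NF

open scoped Classical

variable {K : Type} [Field K] [NumberField K]

/-- the nonzero classes modulo `ℓ` which remove `γ` -/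
noncomputable def Aset (γ : 𝓞 K) (ℓ : ℕ) : Finset ℕ :=
  (Finset.Ico 1 ℓ).filter (fun c => ∃ P : Ideal (𝓞 K), Ideal.absNorm P = ℓ ∧
    ((c : ℕ) : 𝓞 K) + γ ∈ P)

section

variable (K)

/-- the ideals of norm `ℓ` -/
noncomputable def Pset (ℓ : ℕ) : Finset (Ideal (𝓞 K)) :=
  (PI K 0 ℓ).filter (fun P => Ideal.absNorm P = ℓ)

end

theorem mem_Pset {ℓ : ℕ} (hℓ : ℓ.Prime) {P : Ideal (𝓞 K)} : P ∈ Pset K ℓ ↔
    Ideal.absNorm P = ℓ := by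
  unfold Pset
  rw [mem_filter, mem_PI]
  constructor
  · intro h; exact h.2
  · intro h
    refine ⟨⟨by rw [h]; exact hℓ, ?_, by rw [h]⟩, h⟩
    rw [h]
    exact_mod_cast hℓ.pos

theorem not_mem_of_norm {P : Ideal (𝓞 K)} {γ : 𝓞 K} {ℓ : ℕ} (hP : Ideal.absNorm P = ℓ)
    (hN : ¬ (ℓ : ℤ) ∣ Algebra.norm ℤ γ) : γ ∉ P := by
  intro h
  apply hN
  rw [← hP]
  exact Ideal.absNorm_dvd_norm_of_mem h

/-- the class of `-γ` -/
theorem res_neg {P : Ideal (𝓞 K)} {γ : 𝓞 K} {ℓ : ℕ} (hℓ : ℓ.Prime) (hP : Ideal.absNorm P = ℓ)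
    (hN : ¬ (ℓ : ℤ) ∣ Algebra.norm ℤ γ) :
    res P (-γ) ∈ Finset.Ico 1 ℓ ∧ ((res P (-γ) : ℕ) : 𝓞 K) + γ ∈ P := by
  have hP' : (Ideal.absNorm P).Prime := by rw [hP]; exact hℓ
  obtain ⟨h1, h2⟩ := res_spec hP' (-γ)
  rw [hP] at h1
  have h3 : ((res P (-γ) : ℕ) : 𝓞 K) + γ ∈ P := by
    have h4 := P.neg_mem h2
    have h5 : -(-γ - ((res P (-γ) : ℕ) : 𝓞 K)) = ((res P (-γ) : ℕ) : 𝓞 K) + γ := by ring
    rwa [h5] at h4
  refine ⟨Finset.mem_Ico.2 ⟨?_, h1⟩, h3⟩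
  by_contra hcon
  have h6 : res P (-γ) = 0 := by omega
  rw [h6, Nat.cast_zero, zero_add] at h3
  exact not_mem_of_norm hP hN h3

theorem card_A {γ : 𝓞 K} {ℓ : ℕ} (hℓ : ℓ.Prime) (hN : ¬ (ℓ : ℤ) ∣ Algebra.norm ℤ γ)
    (hdist : ∀ (P P' : Ideal (𝓞 K)) (r : ℤ), Ideal.absNorm P = ℓ → Ideal.absNorm P' = ℓ →
      P ≠ P' → γ - (r : 𝓞 K) ∈ P → γ - (r : 𝓞 K) ∈ P' → False) :
    (Pset K ℓ).card ≤ (Aset γ ℓ).card := by
  apply Finset.card_le_card_of_injOn (fun P => res P (-γ))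
  · intro P hP
    rw [Finset.mem_coe, mem_Pset hℓ] at hP
    rw [Finset.mem_coe]
    unfold Aset
    rw [Finset.mem_filter]
    obtain ⟨h1, h2⟩ := res_neg hℓ hP hN
    exact ⟨h1, P, hP, h2⟩
  · intro P hP P' hP' h
    rw [Finset.mem_coe, mem_Pset hℓ] at hP hP'
    simp only at h
    by_contra hne
    obtain ⟨-, h2⟩ := res_neg hℓ hP hN
    obtain ⟨-, h4⟩ := res_neg hℓ hP' hN
    rw [← h] at h4
    refine hdist P P' (-(res P (-γ) : ℤ)) hP hP' hne ?_ ?_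
    · push_cast
      rw [sub_neg_eq_add, add_comm]
      exact h2
    · push_cast
      rw [sub_neg_eq_add, add_comm]
      exact h4

theorem card_Pset_le {ℓ : ℕ} (hℓ : ℓ.Prime) : (Pset K ℓ).card ≤ Module.finrank ℚ K := by
  apply card_over ℓ hℓ
  intro P hP
  rw [mem_Pset hℓ] at hP
  refine ⟨isPrime_of (by rw [hP]; exact hℓ), ?_⟩
  rw [← hP]
  exact Ideal.absNorm_mem P

theorem sum_PI_fib (a b : ℝ) (ha : 0 ≤ a) : ∑ P ∈ PI K a b, 1 / (Ideal.absNorm P : ℝ) =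
    ∑ ℓ ∈ (PR b).filter (fun ℓ : ℕ => a < ℓ), ((Pset K ℓ).card : ℝ) / ℓ := by
  have hmaps : ∀ P ∈ PI K a b, Ideal.absNorm P ∈ (PR b).filter (fun ℓ : ℕ => a < ℓ) := by
    intro P hP
    rw [mem_PI] at hP
    rw [mem_filter, mem_PR]
    exact ⟨⟨hP.1, hP.2.2⟩, hP.2.1⟩
  rw [← Finset.sum_fiberwise_of_maps_to hmaps]
  apply Finset.sum_congr rfl
  intro ℓ hℓ
  rw [mem_filter, mem_PR] at hℓ
  have h1 : (PI K a b).filter (fun P => Ideal.absNorm P = ℓ) = Pset K ℓ := by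
    ext P
    rw [mem_Pset hℓ.1.1, mem_filter, mem_PI]
    constructor
    · intro h; exact h.2
    · intro h
      rw [h]
      exact ⟨⟨hℓ.1.1, hℓ.2, hℓ.1.2⟩, rfl⟩
  rw [h1]
  have h2 : ∀ P ∈ Pset K ℓ, 1 / (Ideal.absNorm P : ℝ) = 1 / ℓ := by
    intro P hP
    rw [mem_Pset hℓ.1.1] at hP
    rw [hP]
  rw [Finset.sum_congr rfl h2, Finset.sum_const, nsmul_eq_mul]
  ring

theorem sum_A_lower (γ : 𝓞 K) (a b : ℝ) (ha : 1 ≤ a) (E' Bad : Finset ℕ)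
    (hgood : ∀ ℓ : ℕ, ℓ.Prime → a < ℓ → ℓ ∉ Bad → ¬ (ℓ : ℤ) ∣ Algebra.norm ℤ γ ∧
      ∀ (P P' : Ideal (𝓞 K)) (r : ℤ), Ideal.absNorm P = ℓ → Ideal.absNorm P' = ℓ →
      P ≠ P' → γ - (r : 𝓞 K) ∈ P → γ - (r : 𝓞 K) ∈ P' → False) :
    ∑ P ∈ PI K a b, 1 / (Ideal.absNorm P : ℝ) -
      ((E'.card : ℝ) + Bad.card) * Module.finrank ℚ K / a ≤
    ∑ ℓ ∈ (PR b).filter (fun ℓ : ℕ => a < ℓ ∧ ℓ ∉ E'),
      ((Aset γ ℓ).card : ℝ) / ((Finset.Ico 1 ℓ).card : ℝ) := by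
  set d : ℝ := (Module.finrank ℚ K : ℝ) with hd
  have ha0 : 0 < a := by linarith
  rw [sum_PI_fib a b ha0.le]
  set S := (PR b).filter (fun ℓ : ℕ => a < ℓ) with hS
  have hSm : ∀ ℓ ∈ S, ℓ.Prime ∧ a < ℓ := by
    intro ℓ hℓ
    rw [hS, mem_filter, mem_PR] at hℓ
    exact ⟨hℓ.1.1, hℓ.2⟩
  have h1 := Finset.sum_filter_add_sum_filter_not S (fun ℓ => ℓ ∉ E' ∧ ℓ ∉ Bad)
    (fun ℓ => ((Pset K ℓ).card : ℝ) / ℓ)
  have h2 : ∑ ℓ ∈ S.filter (fun ℓ => ℓ ∉ E' ∧ ℓ ∉ Bad), ((Pset K ℓ).card : ℝ) / ℓ ≤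
      ∑ ℓ ∈ (PR b).filter (fun ℓ : ℕ => a < ℓ ∧ ℓ ∉ E'),
        ((Aset γ ℓ).card : ℝ) / ((Finset.Ico 1 ℓ).card : ℝ) := by
    have h3 : ∀ ℓ ∈ S.filter (fun ℓ => ℓ ∉ E' ∧ ℓ ∉ Bad), ((Pset K ℓ).card : ℝ) / ℓ ≤
        ((Aset γ ℓ).card : ℝ) / ((Finset.Ico 1 ℓ).card : ℝ) := by
      intro ℓ hℓ
      rw [mem_filter] at hℓ
      obtain ⟨h4, h5⟩ := hSm ℓ hℓ.1
      obtain ⟨h6, h7⟩ := hgood ℓ h4 h5 hℓ.2.2
      have h8 := card_A h4 h6 h7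
      rw [Nat.card_Ico]
      have h9 : (0:ℝ) < ((ℓ - 1 : ℕ) : ℝ) := by
        have := h4.one_lt
        exact_mod_cast (by omega : 0 < ℓ - 1)
      have h10 : ((ℓ - 1 : ℕ) : ℝ) ≤ ℓ := by exact_mod_cast Nat.sub_le _ _
      calc ((Pset K ℓ).card : ℝ) / ℓ ≤ ((Pset K ℓ).card : ℝ) / ((ℓ - 1 : ℕ) : ℝ) :=
            div_le_div_of_nonneg_left (Nat.cast_nonneg _) h9 h10
        _ ≤ _ := div_le_div_of_nonneg_right (by exact_mod_cast h8) h9.le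
    refine (Finset.sum_le_sum h3).trans ?_
    apply Finset.sum_le_sum_of_subset_of_nonneg
    · intro ℓ hℓ
      rw [mem_filter, hS, mem_filter] at hℓ
      rw [mem_filter]
      exact ⟨hℓ.1.1, hℓ.1.2, hℓ.2.1⟩
    · intro ℓ _ _
      positivity
  have h3 : ∑ ℓ ∈ S.filter (fun ℓ => ¬ (ℓ ∉ E' ∧ ℓ ∉ Bad)), ((Pset K ℓ).card : ℝ) / ℓ ≤
      ((E'.card : ℝ) + Bad.card) * d / a := by
    have h4 : ∀ ℓ ∈ S.filter (fun ℓ => ¬ (ℓ ∉ E' ∧ ℓ ∉ Bad)),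
        ((Pset K ℓ).card : ℝ) / ℓ ≤ d / a := by
      intro ℓ hℓ
      rw [mem_filter] at hℓ
      obtain ⟨h5, h6⟩ := hSm ℓ hℓ.1
      exact div_le_div₀ (Nat.cast_nonneg _) (by rw [hd]; exact_mod_cast card_Pset_le h5) ha0 h6.le
    have h5 := Finset.sum_le_card_nsmul _ _ _ h4
    rw [nsmul_eq_mul] at h5
    refine h5.trans ?_
    rw [mul_div_assoc]
    apply mul_le_mul_of_nonneg_right _ (by positivity)
    have h6 : S.filter (fun ℓ => ¬ (ℓ ∉ E' ∧ ℓ ∉ Bad)) ⊆ E' ∪ Bad := by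
      intro ℓ hℓ
      rw [mem_filter] at hℓ
      rw [mem_union]
      by_contra hcon
      push Not at hcon
      exact hℓ.2 hcon
    exact_mod_cast (Finset.card_le_card h6).trans (Finset.card_union_le _ _)
  linarith

/-- few large primes divide a number -/
theorem few_div (n : ℕ) (hn : n ≠ 0) (v : ℝ) (hv : 1 < v) :
    (((n.primeFactors.filter (fun ℓ : ℕ => v < ℓ)).card : ℕ) : ℝ) * Real.log v ≤ Real.log n := by
  set S := n.primeFactors.filter (fun ℓ : ℕ => v < ℓ) with hS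
  have h1 : ∏ ℓ ∈ S, ℓ ≤ n := by
    apply Nat.le_of_dvd (Nat.pos_of_ne_zero hn)
    refine dvd_trans (Finset.prod_dvd_prod_of_subset _ _ _ (Finset.filter_subset _ _)) ?_
    exact Nat.prod_primeFactors_dvd n
  have h2 : v ^ S.card ≤ ((∏ ℓ ∈ S, ℓ : ℕ) : ℝ) := by
    push_cast
    rw [← Finset.prod_const]
    apply Finset.prod_le_prod (fun _ _ => by linarith)
    intro ℓ hℓ
    rw [hS, mem_filter] at hℓ
    exact hℓ.2.le
  have h3 : v ^ S.card ≤ (n : ℝ) := h2.trans (by exact_mod_cast h1)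
  have h4 := Real.log_le_log (by positivity) h3
  rwa [Real.log_pow] at h4

end Pool.Agent.H525.ISO
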