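import Pool.Agent.H525.ISO.Dyad

set_option autoImplicit false
set_option linter.unusedSectionVars false

/-! # The points left after the tiny and the medium primes -/

namespace Pool.Agent.H525.ISO

open Finset NumberField Filter
open Pool.Agent.H474R2.PG
open Pool.Agent.H525.NF

open scoped Classical

variable {K : Type} [Field K] [NumberField K] {ι : Type} [Fintype ι]

section

variable (K)

/-- the prime ideals above the primes of a set -/
noncomputable def PE (X : ℕ) (E : Finset ℕ) : Finset (Ideal (𝓞 K)) :=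
  (Id K X).filter (fun P => P.IsPrime ∧ (Ideal.absNorm P).minFac ∈ E)

end

theorem card_PE (X : ℕ) (E : Finset ℕ) (hE : ∀ p ∈ E, p.Prime) :
    ((PE K X E).card : ℝ) ≤ E.card * Module.finrank ℚ K := by
  have hmaps : ∀ P ∈ PE K X E, (Ideal.absNorm P).minFac ∈ E := by
    intro P hP
    unfold PE at hP
    rw [mem_filter] at hP
    exact hP.2.2
  have h1 : (PE K X E).card ≤ Module.finrank ℚ K * E.card := by
    apply Finset.card_le_mul_card_image_of_maps_to hmaps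
    intro p hp
    apply card_over p (hE p hp)
    intro P hP
    rw [mem_filter] at hP
    have hP1 := hP.1
    unfold PE at hP1
    rw [mem_filter, mem_Id] at hP1
    obtain ⟨q, hq, hqP, hmin, -⟩ := below hP1.2.1 hP1.1.2
    refine ⟨hP1.2.1, ?_⟩
    rw [← hP.2, hmin]
    exact hqP
  rw [mul_comm] at h1
  exact_mod_cast h1

theorem sum_SmI_PE (X : ℕ) (E : Finset ℕ) (hE : ∀ p ∈ E, p.Prime) :
    ∑ J ∈ SmI X (PE K X E), 1 / (Ideal.absNorm J : ℝ) ≤
      Real.exp (4 * (E.card * Module.finrank ℚ K)) := by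
  have hPE : ∀ P ∈ PE K X E, P.IsPrime ∧ P ≠ ⊥ := by
    intro P hP
    unfold PE at hP
    rw [mem_filter, mem_Id] at hP
    exact ⟨hP.2.1, hP.1.2⟩
  have h1 := sm_le X (PE K X E) hPE 1 (by norm_num)
  have h2 : ∀ J : Ideal (𝓞 K), nr 1 J = 1 / (Ideal.absNorm J : ℝ) := by
    intro J
    unfold nr
    rw [Real.rpow_neg_one, one_div]
  have h3 : ∑ P ∈ PE K X E, nr 1 P ≤ E.card * Module.finrank ℚ K := by
    refine le_trans ?_ (card_PE X E hE)
    refine (Finset.sum_le_card_nsmul _ _ 1 (fun P hP => ?_)).trans (le_of_eq ?_)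
    · have := (nr_le (hPE P hP).1 (hPE P hP).2 (σ := 1) (by norm_num)).2
      linarith
    · rw [nsmul_eq_mul, mul_one]
  calc ∑ J ∈ SmI X (PE K X E), 1 / (Ideal.absNorm J : ℝ) = ∑ J ∈ SmI X (PE K X E), nr 1 J :=
        Finset.sum_congr rfl (fun J _ => (h2 J).symm)
    _ ≤ _ := h1
    _ ≤ _ := Real.exp_le_exp.2 (by linarith)

/-- the elements which are a large prime times few small primes -/
theorem G_card (hU : S_UNIT) (α : ι → 𝓞 K) (hα : LinearIndependent ℤ α) (C₁ : ℝ) (hC₁ : 1 ≤ C₁)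
    (hemb : ∀ (σ : K →ₐ[ℚ] ℂ) (x : ι → ℤ) (r : ℝ), 0 ≤ r → (∀ i, |((x i : ℤ) : ℝ)| ≤ r) →
      ‖σ (th α x : 𝓞 K)‖ ≤ C₁ * r)
    (hc : Fintype.card ι = Module.finrank ℚ K) : ∃ C : ℝ, 0 < C ∧
    ∀ (y : ℝ) (R X : ℕ) (E : Finset ℕ), 2 ≤ y → 1 ≤ R → (∀ p ∈ E, p.Prime) →
      ∀ G : Finset (ι → ℤ), (∀ w ∈ G, ∀ i, |w i| ≤ R) → (∀ w ∈ G, w ≠ 0) →
      (∀ w ∈ G, ∃ P ∈ PI K y ((C₁ * R) ^ Fintype.card ι), ∃ J ∈ SmI X (PE K X E),
        Ideal.span {th α w} = P * J) →
      (G.card : ℝ) ≤ C * Real.exp (4 * (E.card * Module.finrank ℚ K)) *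
        ((R : ℝ) ^ Fintype.card ι / Real.log y) := by
  obtain ⟨CU, hCU, hunit⟩ := hU K
  set dn := Fintype.card ι with hdn
  set d : ℝ := (dn : ℝ) with hd
  have hfin : (Module.finrank ℚ K : ℝ) = d := by rw [hd, hc]
  have hdn0 : 0 < dn := by rw [hc]; exact Module.finrank_pos
  have hd1 : 1 ≤ d := by rw [hd]; exact_mod_cast hdn0
  refine ⟨CU * (d * 7) * C₁ ^ dn, by positivity, ?_⟩
  intro y R X E hy hR hE G hGR hG0 hG
  have hly : 0 < Real.log y := Real.log_pos (by linarith)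
  have hRR : (1:ℝ) ≤ R := by exact_mod_cast hR
  set X₀ : ℝ := (C₁ * R) ^ dn with hX₀
  have hCR : 1 ≤ C₁ * R := by nlinarith
  have hX₀1 : 1 ≤ X₀ := one_le_pow₀ hCR
  set 𝒥 := SmI X (PE K X E) with h𝒥
  have hJ0 : ∀ J ∈ 𝒥, (0:ℝ) < Ideal.absNorm J := by
    intro J hJ
    rw [h𝒥, mem_SmI] at hJ
    exact_mod_cast absNorm_pos hJ.1.2
  have hsub : G ⊆ 𝒥.biUnion (fun J => (PI K y (X₀ / Ideal.absNorm J)).biUnion
      (fun P => G.filter (fun w => Ideal.span {th α w} = P * J))) := by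
    intro w hw
    obtain ⟨P, hP, J, hJ, hPJ⟩ := hG w hw
    have ht0 : th α w ≠ 0 := fun h1 => hG0 w hw (th_inj hα (by rw [h1, map_zero]))
    rw [Finset.mem_biUnion]
    refine ⟨J, hJ, ?_⟩
    rw [Finset.mem_biUnion]
    refine ⟨P, ?_, Finset.mem_filter.2 ⟨hw, hPJ⟩⟩
    rw [mem_PI] at hP ⊢
    refine ⟨hP.1, hP.2.1, ?_⟩
    rw [le_div_iff₀ (hJ0 J hJ)]
    have h1 : (Ideal.absNorm P : ℝ) * Ideal.absNorm J = Ideal.absNorm (Ideal.span {th α w}) := by
      rw [hPJ, map_mul, Nat.cast_mul]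
    rw [h1]
    have h2 := absNorm_le_of_mem (Ideal.mem_span_singleton_self (th α w)) ht0
    refine h2.trans ?_
    apply norm_le hc hemb w R (Nat.cast_nonneg _)
    intro i
    exact_mod_cast hGR w hw i
  have hone : ∀ J ∈ 𝒥, ∀ P ∈ PI K y (X₀ / Ideal.absNorm J),
      ((G.filter (fun w => Ideal.span {th α w} = P * J)).card : ℝ) ≤
        CU * Real.sqrt (X₀ / Ideal.absNorm J / Ideal.absNorm P) := by
    intro J hJ P hP
    have hJ' := hJ
    rw [h𝒥, mem_SmI] at hJ'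
    rw [mem_PI] at hP
    have hPJ0 : P * J ≠ ⊥ := by
      rw [Ne, ← Ideal.zero_eq_bot, mul_eq_zero, not_or]
      exact ⟨ne_bot_of hP.1, hJ'.1.2⟩
    have h1 := hunit ((G.filter (fun w => Ideal.span {th α w} = P * J)).image (th α)) (P * J)
      (C₁ * R) hCR hPJ0 (by
        intro x hx
        rw [mem_image] at hx
        obtain ⟨w, hw, rfl⟩ := hx
        rw [mem_filter] at hw
        refine ⟨hw.2, fun σ => hemb σ w R (Nat.cast_nonneg _) (fun i => ?_)⟩
        exact_mod_cast hGR w hw.1 i)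
    rw [Finset.card_image_of_injective _ (th_inj hα), ← hc] at h1
    have h2 : (C₁ * R) ^ Fintype.card ι / (Ideal.absNorm (P * J) : ℝ) =
        X₀ / Ideal.absNorm J / Ideal.absNorm P := by
      rw [map_mul, Nat.cast_mul, div_div, mul_comm (Ideal.absNorm P : ℝ)]
    rw [h2] at h1
    exact h1
  have h1 : (G.card : ℝ) ≤ ∑ J ∈ 𝒥, ∑ P ∈ PI K y (X₀ / Ideal.absNorm J),
      ((G.filter (fun w => Ideal.span {th α w} = P * J)).card : ℝ) := by
    have h2 := (Finset.card_le_card hsub).trans Finset.card_biUnion_le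
    have h3 : ∀ J ∈ 𝒥, ((PI K y (X₀ / Ideal.absNorm J)).biUnion
      (fun P => G.filter (fun w => Ideal.span {th α w} = P * J))).card ≤
        ∑ P ∈ PI K y (X₀ / Ideal.absNorm J),
          (G.filter (fun w => Ideal.span {th α w} = P * J)).card :=
      fun J _ => Finset.card_biUnion_le
    have h4 := h2.trans (Finset.sum_le_sum h3)
    exact_mod_cast h4
  refine h1.trans ?_
  have h2 : ∀ J ∈ 𝒥, ∑ P ∈ PI K y (X₀ / Ideal.absNorm J),
      ((G.filter (fun w => Ideal.span {th α w} = P * J)).card : ℝ) ≤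
        CU * (d * (7 * (X₀ / Ideal.absNorm J) / Real.log y)) := by
    intro J hJ
    refine (Finset.sum_le_sum (hone J hJ)).trans ?_
    rw [← Finset.mul_sum]
    apply mul_le_mul_of_nonneg_left _ (by linarith)
    have h3 := sum_PI_sqrt (K := K) y (X₀ / Ideal.absNorm J) hy
      (div_nonneg (by linarith) (hJ0 J hJ).le)
    rw [hfin] at h3
    exact h3
  refine (Finset.sum_le_sum h2).trans ?_
  have h3 : ∑ J ∈ 𝒥, CU * (d * (7 * (X₀ / Ideal.absNorm J) / Real.log y)) =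
      CU * (d * 7) * X₀ / Real.log y * ∑ J ∈ 𝒥, 1 / (Ideal.absNorm J : ℝ) := by
    rw [Finset.mul_sum]
    apply Finset.sum_congr rfl
    intro J _
    ring
  rw [h3]
  have h4 := sum_SmI_PE (K := K) X E hE
  have h5 : 0 ≤ CU * (d * 7) * X₀ / Real.log y := by positivity
  refine (mul_le_mul_of_nonneg_left h4 h5).trans (le_of_eq ?_)
  rw [hX₀, mul_pow]
  ring

end Pool.Agent.H525.ISO
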