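import Pool.Agent.H525.ISO.Tp

set_option autoImplicit false
set_option linter.unusedSectionVars false

/-! # The points left after the tiny and the medium primes -/

namespace Pool.Agent.H525.ISO

open Finset NumberField Filter
open Pool.Agent.H474R2.PG
open Pool.Agent.H525.NF

open scoped Classical

variable {K : Type} [Field K] [NumberField K] {ι : Type} [Fintype ι]

theorem Tp_card (hU : S_UNIT) (α : ι → 𝓞 K) (hα : LinearIndependent ℤ α)
    (hc : Fintype.card ι = Module.finrank ℚ K) (E : Finset ℕ) (hE : ∀ p ∈ E, p.Prime) :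
    ∃ C A₀ B : ℝ, 0 < C ∧ 1 ≤ A₀ ∧
    ∀ (y l1 l2 l3 : ℝ) (R : ℕ), 3 ≤ y → l1 = Real.log y → l2 = Real.log l1 → l3 = Real.log l2 →
      1 ≤ l3 → l3 ≤ l2 → B ≤ l2 → B * l2 ^ 2 ≤ l1 →
      y ≤ (R : ℝ) ^ Fintype.card ι → (R : ℝ) ^ Fintype.card ι * l2 ≤ y * l1 →
      ∀ p₀ : ℕ, p₀.Prime → ∀ T : Finset (ι → ℤ), (∀ w ∈ T, ∀ i, |w i| ≤ R) →
        (∀ w ∈ T, ∀ ℓ : ℕ, ℓ.Prime → (ℓ : ℝ) ≤ y → ℓ ∉ E → ℓ ≠ p₀ →
          ((ℓ : ℝ) ≤ l1 ∨ Real.exp (l1 * l3 / (A₀ * l2)) < ℓ) →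
          ∀ P : Ideal (𝓞 K), P.IsPrime → ((ℓ : ℕ) : 𝓞 K) ∈ P → th α w ∉ P) →
        (T.card : ℝ) ≤ C * ((R : ℝ) ^ Fintype.card ι / l1) := by
  obtain ⟨C₂, hC₂, hideal⟩ := ideal_count hα hc
  obtain ⟨C₁, hC₁, hemb⟩ := emb_bound α
  obtain ⟨CG, hCG, hG⟩ := G_card hU α hα C₁ hC₁ hemb hc
  obtain ⟨δ, hδ, hδ2⟩ := emb_ne hα
  obtain ⟨C₃, hC₃0, hC₃⟩ := sum_rpow_le
  set dn := Fintype.card ι with hdn
  set d : ℝ := (dn : ℝ) with hd
  have hfin : (Module.finrank ℚ K : ℝ) = d := by rw [hd, hc]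
  have hdn0 : 0 < dn := by rw [hc]; exact Module.finrank_pos
  have hd1 : 1 ≤ d := by rw [hd]; exact_mod_cast hdn0
  have hne : Nonempty ι := Fintype.card_pos_iff.1 hdn0
  set A₀ : ℝ := 4 * (4 * d * (1 + 2 * C₃) + 1) with hA₀
  have hA₀4 : 4 ≤ A₀ := by
    rw [hA₀]
    have : 0 ≤ 4 * d * (1 + 2 * C₃) := by positivity
    linarith
  set C₄ : ℝ := d * ((2 / δ + 1) * 3 ^ dn) with hC₄
  set B : ℝ := max (max A₀ (C₁ ^ dn + 1)) (max (2 * d) (((E.sup id : ℕ) : ℝ) + 1)) with hB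
  have hB1 : A₀ ≤ B := (le_max_left _ _).trans (le_max_left _ _)
  have hB2 : C₁ ^ dn + 1 ≤ B := (le_max_right _ _).trans (le_max_left _ _)
  have hB3 : 2 * d ≤ B := (le_max_left _ _).trans (le_max_right _ _)
  have hB4 : ((E.sup id : ℕ) : ℝ) + 1 ≤ B := (le_max_right _ _).trans (le_max_right _ _)
  have hB5 : 1 ≤ B := by
    have : (0:ℝ) ≤ ((E.sup id : ℕ) : ℝ) := Nat.cast_nonneg _
    linarith
  set CE : ℝ := CG * Real.exp (4 * (((E.card : ℕ) : ℝ) + 1) * d) with hCE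
  have hCE0 : 0 < CE := by positivity
  refine ⟨1 + CE + C₂ * (2 * d) + C₂ * d + C₂ + C₄, A₀, B, by positivity, by linarith, ?_⟩
  intro y l1 l2 l3 R hy hl1 hl2 hl3 h1l3 hl32 hBl2 hBl1 hyR hRy p₀ hp₀ T hTR hTP
  have h1l2 : 1 ≤ l2 := by linarith
  have hl2sq : l2 ≤ l2 ^ 2 := by nlinarith only [h1l2]
  have hl12 : B * l2 ≤ l1 := by nlinarith only [hl2sq, hB5, hBl1]
  have hl21 : l2 ≤ l1 := by nlinarith only [hl12, hB5, h1l2]
  have h1l1 : 1 ≤ l1 := by linarith
  have hy0 : 0 < y := by linarith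
  have hl10 : 0 < l1 := by linarith
  have hl20 : 0 < l2 := by linarith
  have hl1y : l1 ≤ y := by
    rw [hl1]; linarith only [Real.log_le_sub_one_of_pos hy0]
  set z : ℝ := Real.exp (l1 * l3 / (A₀ * l2)) with hz
  have hlz : Real.log z = l1 * l3 / (A₀ * l2) := by rw [hz, Real.log_exp]
  have hA₀0 : 0 < A₀ := by linarith
  have hlz1 : l2 ≤ Real.log z := by
    rw [hlz, le_div_iff₀ (by positivity)]
    have h1 : A₀ * l2 ^ 2 ≤ l1 := le_trans (mul_le_mul_of_nonneg_right hB1 (by positivity)) hBl1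
    nlinarith only [h1, h1l3, hl10]
  have hlzy : Real.log z ≤ l1 := by
    rw [hlz, div_le_iff₀ (by positivity)]
    have : l3 ≤ A₀ * l2 := by nlinarith only [hl32, hA₀4, hl20]
    nlinarith only [this, hl10]
  have hz1 : l1 ≤ z := by
    have h1 : l1 = Real.exp l2 := by rw [hl2, Real.exp_log hl10]
    rw [h1, hz, Real.exp_le_exp, ← hlz]
    exact hlz1
  have hzy : z ≤ y := by
    have h1 : y = Real.exp l1 := by rw [hl1, Real.exp_log hy0]
    rw [h1, hz, Real.exp_le_exp, ← hlz]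
    exact hlzy
  have hEz : ∀ e ∈ E, (e : ℝ) ≤ z := by
    intro e he
    have h1 : e ≤ E.sup id := Finset.le_sup (f := id) he
    have h2 : (e : ℝ) ≤ ((E.sup id : ℕ) : ℝ) := by exact_mod_cast h1
    linarith
  -- `R`
  set Rr : ℝ := (R : ℝ) with hRr
  have hR1n : 1 ≤ R := by
    by_contra hcon
    push Not at hcon
    have h1 : R = 0 := by omega
    rw [hRr, h1, Nat.cast_zero, zero_pow hdn0.ne'] at hyR
    linarith
  have hR1 : 1 ≤ Rr := by rw [hRr]; exact_mod_cast hR1n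
  have hR0 : 0 < Rr := by linarith
  have hlogR : l1 ≤ d * Real.log Rr := by
    rw [hl1, hd, ← Real.log_pow]
    exact Real.log_le_log hy0 hyR
  set ρ : ℝ := Real.sqrt Rr with hρ
  have hρ0 : 0 < ρ := Real.sqrt_pos.2 hR0
  have hρ1 : 1 ≤ ρ := by rw [hρ]; exact Real.one_le_sqrt.2 hR1
  have hρρ : ρ * ρ = Rr := Real.mul_self_sqrt hR0.le
  have hlogρ : Real.log ρ = Real.log Rr / 2 := by rw [hρ, Real.log_sqrt hR0.le]
  have hρl1 : l1 ≤ ρ := by
    have h1 : l1 = Real.exp l2 := by rw [hl2, Real.exp_log hl10]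
    rw [h1, ← Real.exp_log hρ0, Real.exp_le_exp, hlogρ]
    have h2 : 2 * d * l2 ≤ d * Real.log Rr :=
      (mul_le_mul_of_nonneg_right hB3 hl20.le).trans (hl12.trans hlogR)
    have h3 : 2 * l2 ≤ Real.log Rr := by
      have h4 : d * (2 * l2) ≤ d * Real.log Rr := by linarith
      exact le_of_mul_le_mul_left h4 (by linarith)
    linarith
  have hexp : Real.exp 1 ≤ z := by
    rw [hz, Real.exp_le_exp, ← hlz]; linarith
  have hz2' : 2 ≤ z := by
    have := Real.exp_one_gt_d9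
    linarith
  set X₀ : ℝ := (C₁ * Rr) ^ dn with hX₀
  have hX₀y : y ≤ X₀ := by
    refine hyR.trans ?_
    rw [hX₀]
    exact pow_le_pow_left₀ hR0.le (by nlinarith only [hR0, hC₁]) _
  set X : ℕ := ⌊X₀⌋₊ with hX
  set Rd : ℝ := Rr ^ dn with hRd
  have hRd0 : 0 < Rd := by positivity
  -- the cofactor is small
  have hcof : X₀ < l1 * y := by
    have h1 : X₀ = C₁ ^ dn * Rd := by rw [hX₀, mul_pow]
    rw [h1]
    have h2 : C₁ ^ dn < l2 := by linarith
    have h3 : 0 < Rd * l2 := by positivity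
    calc C₁ ^ dn * Rd < l2 * Rd := mul_lt_mul_of_pos_right h2 hRd0
      _ = Rd * l2 := mul_comm _ _
      _ ≤ y * l1 := hRy
      _ = l1 * y := mul_comm _ _
  have hC : ∀ (I : Ideal (𝓞 K)), I ≠ ⊥ → ∀ S : Finset (ι → ℤ),
      (∀ w ∈ S, (∀ i, |w i| ≤ R) ∧ w ≠ 0 ∧ th α w ∈ I) →
      (S.card : ℝ) ≤ C₂ * (Rr ^ Fintype.card ι / Ideal.absNorm I) :=
    fun I hI S hS => hideal I R hI S hS
  -- the families
  set E' : Finset ℕ := insert p₀ E with hE'
  have hE'p : ∀ p ∈ E', p.Prime := by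
    intro p hp
    rcases mem_insert.1 hp with h | h
    · rw [h]; exact hp₀
    · exact hE p h
  set Q₂ := (Id K X).filter (fun P => P.IsPrime ∧ z < ((Ideal.absNorm P).minFac : ℝ) ∧
      ¬ (Ideal.absNorm P).Prime) with hQ₂
  set V : ℝ := ρ ^ dn with hV
  have hV1 : 1 ≤ V := one_le_pow₀ hρ1
  set Q₃ := (SmI X (PZ K X z)).filter (fun I => V ≤ (Ideal.absNorm I : ℝ)) with hQ₃
  set Q₄ := (PI K z y).filter (fun P => Ideal.absNorm P = p₀) with hQ₄
  set U : Finset (Ideal (𝓞 K)) → Finset (ι → ℤ) :=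
    fun Q => Q.biUnion (fun P => T.filter (fun h => h ≠ 0 ∧ th α h ∈ P)) with hU'
  set G : Finset (ι → ℤ) := T.filter (fun h => h ≠ 0 ∧ ∃ P ∈ PI K y X₀,
    ∃ J ∈ SmI X (PE K X E'), Ideal.span {th α h} = P * J) with hGdef
  set BS : Finset (ι → ℤ) := (Finset.univ : Finset (K →ₐ[ℚ] ℂ)).biUnion
    (fun σ => T.filter (fun h => ‖σ (th α h : 𝓞 K)‖ ≤ ρ)) with hBS
  have hcover : T ⊆ {0} ∪ G ∪ U Q₂ ∪ U Q₃ ∪ U Q₄ ∪ BS := by
    intro h hh
    simp only [mem_union, Finset.mem_singleton]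
    by_cases h0 : h = 0
    · exact Or.inl (Or.inl (Or.inl (Or.inl (Or.inl h0))))
    have ht0 : th α h ≠ 0 := fun h1 => h0 (th_inj hα (by rw [h1, map_zero]))
    have hnorm : |((Algebra.norm ℤ (th α h) : ℤ) : ℝ)| ≤ X₀ := by
      apply norm_le hc hemb h Rr hR0.le
      intro i
      have := hTR h hh i
      rw [hRr]
      exact_mod_cast this
    have hNle : ∀ P : Ideal (𝓞 K), th α h ∈ P → (Ideal.absNorm P : ℝ) ≤ X₀ :=
      fun P hP => (absNorm_le_of_mem hP ht0).trans hnorm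
    by_cases hA : ∃ P ∈ PI K y X₀, th α h ∈ P
    · obtain ⟨P, hP1, hP2⟩ := hA
      refine Or.inl (Or.inl (Or.inl (Or.inl (Or.inr ?_))))
      rw [hGdef, Finset.mem_filter]
      refine ⟨hh, h0, P, hP1, ?_⟩
      have h1 : P ∣ Ideal.span {th α h} := by
        rw [Ideal.dvd_iff_le, Ideal.span_singleton_le_iff_mem]
        exact hP2
      obtain ⟨J, hJ⟩ := h1
      have hspan0 : Ideal.span {th α h} ≠ ⊥ := by
        rw [Ne, Ideal.span_singleton_eq_bot]
        exact ht0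
      have hJ0 : J ≠ ⊥ := by
        rintro rfl
        rw [Ideal.mul_bot] at hJ
        exact hspan0 hJ
      have hJmem : th α h ∈ J := by
        have h2 : Ideal.span {th α h} ≤ J := by rw [hJ]; exact Ideal.mul_le_right
        exact h2 (Ideal.mem_span_singleton_self _)
      have hP1' := mem_PI.1 hP1
      have hNJ : (Ideal.absNorm J : ℝ) < l1 := by
        have h2 : (Ideal.absNorm P : ℝ) * Ideal.absNorm J =
            Ideal.absNorm (Ideal.span {th α h}) := by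
          rw [hJ, map_mul, Nat.cast_mul]
        have h3 := hNle _ (Ideal.mem_span_singleton_self (th α h))
        rw [← h2] at h3
        have h4 : (0:ℝ) < Ideal.absNorm J := by exact_mod_cast absNorm_pos hJ0
        by_contra hcon
        push Not at hcon
        have h5 : l1 * y ≤ Ideal.absNorm P * Ideal.absNorm J := by
          rw [mul_comm l1]
          exact mul_le_mul hP1'.2.1.le hcon hl10.le (by linarith [hP1'.2.1])
        linarith
      refine ⟨J, ?_, hJ⟩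
      rw [mem_SmI]
      refine ⟨⟨Nat.le_floor (hNle J hJmem), hJ0⟩, fun P' hP' hJP' => ?_⟩
      have hP'0 : P' ≠ ⊥ := by
        rintro rfl
        exact hJ0 (le_bot_iff.1 hJP')
      unfold PE
      rw [mem_filter, mem_Id]
      refine ⟨⟨Nat.le_floor (hNle P' (hJP' hJmem)), hP'0⟩, hP', ?_⟩
      obtain ⟨p', hp', hp'P, hmin, n, hn, hnorm'⟩ := below hP' hP'0
      rw [hmin]
      by_contra hcon
      rw [hE', mem_insert, not_or] at hcon
      have h5 : p' ≤ Ideal.absNorm P' := by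
        rw [hnorm']
        calc p' = p' ^ 1 := (pow_one _).symm
          _ ≤ p' ^ n := Nat.pow_le_pow_right hp'.pos hn
      have h6 : Ideal.absNorm P' ≤ Ideal.absNorm J :=
        Nat.le_of_dvd (absNorm_pos hJ0) (Ideal.absNorm_dvd_absNorm_of_le hJP')
      have h7 : (p' : ℝ) ≤ Ideal.absNorm J := by exact_mod_cast h5.trans h6
      exact hTP h hh p' hp' (by linarith) hcon.2 hcon.1 (Or.inl (by linarith)) P' hP' hp'P
        (hJP' hJmem)
    by_cases hB1 : ∃ P ∈ Q₂, th α h ∈ P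
    · obtain ⟨P, hP1, hP2⟩ := hB1
      refine Or.inl (Or.inl (Or.inl (Or.inr ?_)))
      rw [hU']
      exact Finset.mem_biUnion.2 ⟨P, hP1, Finset.mem_filter.2 ⟨hh, h0, hP2⟩⟩
    by_cases hB4 : ∃ P ∈ Q₄, th α h ∈ P
    · obtain ⟨P, hP1, hP2⟩ := hB4
      refine Or.inl (Or.inr ?_)
      rw [hU']
      exact Finset.mem_biUnion.2 ⟨P, hP1, Finset.mem_filter.2 ⟨hh, h0, hP2⟩⟩
    -- all prime factors are small
    have hsm : ∀ P : Ideal (𝓞 K), P.IsPrime → P ≠ ⊥ → th α h ∈ P → P ∈ PZ K X z := by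
      intro P hP hP0 hhP
      unfold PZ
      rw [mem_filter, mem_Id]
      have hN := hNle P hhP
      refine ⟨⟨Nat.le_floor hN, hP0⟩, hP, ?_⟩
      by_contra hcon
      push Not at hcon
      by_cases hpr : (Ideal.absNorm P).Prime
      · have h3 : (Ideal.absNorm P).minFac = Ideal.absNorm P := hpr.minFac_eq
        rw [h3] at hcon
        rcases le_or_gt ((Ideal.absNorm P : ℕ) : ℝ) y with h4 | h4
        · by_cases h5 : Ideal.absNorm P = p₀
          · exact hB4 ⟨P, Finset.mem_filter.2 ⟨mem_PI.2 ⟨hpr, hcon, h4⟩, h5⟩, hhP⟩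
          · have h6 : Ideal.absNorm P ∉ E := fun h7 => by
              have := hEz _ h7
              linarith
            exact hTP h hh (Ideal.absNorm P) hpr h4 h6 h5 (Or.inr hcon) P hP
              (Ideal.absNorm_mem P) hhP
        · exact hA ⟨P, mem_PI.2 ⟨hpr, h4, hN⟩, hhP⟩
      · exact hB1 ⟨P, by
          rw [hQ₂, mem_filter, mem_Id]
          exact ⟨⟨Nat.le_floor hN, hP0⟩, hP, hcon, hpr⟩, hhP⟩
    set I : Ideal (𝓞 K) := Ideal.span {th α h} with hI
    have hI0 : I ≠ ⊥ := by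
      rw [hI, Ne, Ideal.span_singleton_eq_bot]
      exact ht0
    have hhI : th α h ∈ I := Ideal.mem_span_singleton_self _
    have hIN : (Ideal.absNorm I : ℝ) = |((Algebra.norm ℤ (th α h) : ℤ) : ℝ)| := by
      rw [hI, Ideal.absNorm_span_singleton, Nat.cast_natAbs, Int.cast_abs]
    rcases le_or_gt V (Ideal.absNorm I : ℝ) with hVI | hVI
    · refine Or.inl (Or.inl (Or.inr ?_))
      rw [hU']
      refine Finset.mem_biUnion.2 ⟨I, ?_, Finset.mem_filter.2 ⟨hh, h0, hhI⟩⟩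
      rw [hQ₃, mem_filter, mem_SmI]
      refine ⟨⟨⟨Nat.le_floor (hNle I hhI), hI0⟩, fun P hP hIP => ?_⟩, hVI⟩
      have hP0 : P ≠ ⊥ := by
        rintro rfl
        exact hI0 (le_bot_iff.1 hIP)
      exact hsm P hP hP0 (hIP hhI)
    · refine Or.inr ?_
      rw [hBS, Finset.mem_biUnion]
      by_contra hcon
      push Not at hcon
      have h3 : V ≤ |((Algebra.norm ℤ (th α h) : ℤ) : ℝ)| := by
        rw [norm_eq, hV, hc, ← card_emb (K := K), ← Finset.card_univ, ← Finset.prod_const]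
        apply Finset.prod_le_prod (fun _ _ => hρ0.le)
        intro σ _
        have h4 := hcon σ (mem_univ σ)
        rw [Finset.mem_filter, not_and] at h4
        exact (not_le.1 (h4 hh)).le
      rw [hIN] at hVI
      linarith
  have hcard : (T.card : ℝ) ≤ 1 + (G.card : ℝ) + ((U Q₂).card : ℝ) + ((U Q₃).card : ℝ) +
      ((U Q₄).card : ℝ) + (BS.card : ℝ) := by
    have h1 := Finset.card_le_card hcover
    have h2 := Finset.card_union_le ({0} ∪ G ∪ U Q₂ ∪ U Q₃ ∪ U Q₄) BS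
    have h2' := Finset.card_union_le ({0} ∪ G ∪ U Q₂ ∪ U Q₃) (U Q₄)
    have h3 := Finset.card_union_le ({0} ∪ G ∪ U Q₂) (U Q₃)
    have h4 := Finset.card_union_le ({0} ∪ G) (U Q₂)
    have h5 := Finset.card_union_le ({0} : Finset (ι → ℤ)) G
    have h6 : ({0} : Finset (ι → ℤ)).card = 1 := Finset.card_singleton _
    have h7 : T.card ≤ 1 + G.card + (U Q₂).card + (U Q₃).card + (U Q₄).card + BS.card := by
      omega
    exact_mod_cast h7
  -- the bounds
  have hb0 : (1:ℝ) ≤ Rd / l1 := by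
    rw [le_div_iff₀ hl10, one_mul]
    linarith
  have hb1 : (G.card : ℝ) ≤ CE * (Rd / l1) := by
    have h1 := hG y R X E' (by linarith) hR1n hE'p G
      (fun w hw => hTR w (Finset.mem_filter.1 hw).1)
      (fun w hw => (Finset.mem_filter.1 hw).2.1)
      (fun w hw => (Finset.mem_filter.1 hw).2.2)
    rw [← hl1] at h1
    refine h1.trans ?_
    apply mul_le_mul_of_nonneg_right _ (by positivity)
    rw [hCE]
    apply mul_le_mul_of_nonneg_left _ hCG.le
    apply Real.exp_le_exp.2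
    rw [hfin]
    have h2 : (E'.card : ℝ) ≤ (E.card : ℝ) + 1 := by
      exact_mod_cast Finset.card_insert_le _ _
    nlinarith only [h2, hd1]
  have hb2 : ((U Q₂).card : ℝ) ≤ C₂ * (2 * d) * (Rd / l1) := by
    have h1 := U_card T hRr hTR hC Q₂ (fun P hP => by
      rw [hQ₂, mem_filter, mem_Id] at hP
      exact hP.1.2)
    have h2 := sum_deg_two (K := K) X z hz2'
    rw [hfin] at h2
    have h3 : d * (2 / z) ≤ 2 * d * (1 / l1) := by
      have h4 : 2 / z ≤ 2 / l1 := div_le_div_of_nonneg_left (by norm_num) hl10 hz1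
      have h6 : d * (2 / z) ≤ d * (2 / l1) :=
        mul_le_mul_of_nonneg_left h4 (by linarith)
      calc d * (2 / z) ≤ d * (2 / l1) := h6
        _ = _ := by ring
    refine h1.trans ?_
    calc C₂ * Rd * ∑ P ∈ Q₂, 1 / (Ideal.absNorm P : ℝ) ≤ C₂ * Rd * (2 * d * (1 / l1)) :=
          mul_le_mul_of_nonneg_left (h2.trans h3) (by positivity)
      _ = _ := by ring
  have hb4' : ((U Q₄).card : ℝ) ≤ C₂ * d * (Rd / l1) := by
    have h1 := U_card T hRr hTR hC Q₄ (fun P hP => by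
      rw [hQ₄, mem_filter, mem_PI] at hP
      exact ne_bot_of hP.1.1)
    have h2 : ∑ P ∈ Q₄, 1 / (Ideal.absNorm P : ℝ) ≤ d * (1 / l1) := by
      have h3 : ∀ P ∈ Q₄, 1 / (Ideal.absNorm P : ℝ) ≤ 1 / l1 := by
        intro P hP
        rw [hQ₄, mem_filter, mem_PI] at hP
        apply one_div_le_one_div_of_le hl10
        linarith [hP.1.2.1]
      have h4 : Q₄.card ≤ Module.finrank ℚ K := by
        apply card_over p₀ hp₀
        intro P hP
        rw [hQ₄, mem_filter, mem_PI] at hP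
        refine ⟨isPrime_of hP.1.1, ?_⟩
        rw [← hP.2]
        exact Ideal.absNorm_mem P
      have h5 := Finset.sum_le_card_nsmul _ _ _ h3
      rw [nsmul_eq_mul] at h5
      refine h5.trans (mul_le_mul_of_nonneg_right ?_ (by positivity))
      rw [← hfin]
      exact_mod_cast h4
    refine h1.trans ?_
    calc C₂ * Rd * ∑ P ∈ Q₄, 1 / (Ideal.absNorm P : ℝ) ≤ C₂ * Rd * (d * (1 / l1)) :=
          mul_le_mul_of_nonneg_left h2 (by positivity)
      _ = _ := by ring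
  have hb3 : ((U Q₃).card : ℝ) ≤ C₂ * (Rd / l1) := by
    have h1 := U_card T hRr hTR hC Q₃ (fun P hP => by
      rw [hQ₃, mem_filter, mem_SmI] at hP
      exact hP.1.1.2)
    set η : ℝ := A₀ * l2 / (2 * l1) with hη
    have hη0 : 0 ≤ η := by positivity
    have hη2 : η ≤ 1 / 2 := by
      rw [hη, div_le_div_iff₀ (by positivity) (by norm_num)]
      have : A₀ * l2 ≤ l1 := le_trans (mul_le_mul_of_nonneg_right hB1 hl20.le) hl12
      linarith
    have h2 := smooth_tail (K := K) X z V (1 - η) (by linarith) (by linarith) hV1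
    have h2' := hC₃ z η (by
      -- `3 ≤ z`
      have h3 : Real.exp 4 ≤ z := by
        rw [hz, Real.exp_le_exp, ← hlz]
        have h4 : 4 ≤ l2 := by linarith only [hA₀4, hB1, hBl2]
        linarith only [h4, hlz1]
      have h4 := Real.add_one_le_exp (4:ℝ)
      linarith) hη0
    have h3 : 2 * (η * Real.log z) = l3 := by
      rw [hlz, hη]
      field_simp
    rw [h3, hl3, Real.exp_log hl20] at h2'
    have h4 : Real.log (Real.log z) ≤ l2 := by
      rw [hl2]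
      exact Real.log_le_log (by linarith) hlzy
    have h5 : ∑ p ∈ PR z, (p : ℝ) ^ (-(1 - η)) ≤ (1 + 2 * C₃) * l2 := by
      nlinarith only [h2', h4, hC₃0, h1l2]
    have h6 : V ^ (-(1 - (1 - η))) ≤ Real.exp (-(A₀ / 4 * l2)) := by
      have h7 : -(1 - (1 - η)) = -η := by ring
      rw [h7, Real.rpow_def_of_pos (by linarith)]
      apply Real.exp_le_exp.2
      have h8 : Real.log V = d * (Real.log Rr / 2) := by rw [hV, Real.log_pow, hlogρ]
      rw [h8]
      have h9 : l1 / 2 ≤ d * (Real.log Rr / 2) := by linarith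
      have h10 : l1 / 2 * η ≤ d * (Real.log Rr / 2) * η := mul_le_mul_of_nonneg_right h9 hη0
      have h11 : l1 / 2 * η = A₀ / 4 * l2 := by rw [hη]; field_simp; norm_num
      linarith
    have h7 : ∑ I ∈ Q₃, 1 / (Ideal.absNorm I : ℝ) ≤ 1 / l1 := by
      refine h2.trans ?_
      rw [hfin]
      have h8 : Real.exp (4 * (d * ∑ p ∈ PR z, (p : ℝ) ^ (-(1 - η)))) ≤
          Real.exp (4 * (d * ((1 + 2 * C₃) * l2))) := by
        apply Real.exp_le_exp.2
        have := mul_le_mul_of_nonneg_left h5 (by linarith : (0:ℝ) ≤ d)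
        linarith
      have h9 := mul_le_mul h6 h8 (Real.exp_pos _).le (Real.exp_pos _).le
      refine h9.trans ?_
      rw [← Real.exp_add]
      have h10 : -(A₀ / 4 * l2) + 4 * (d * ((1 + 2 * C₃) * l2)) = -l2 := by rw [hA₀]; ring
      rw [h10, Real.exp_neg]
      have h11 : Real.exp l2 = l1 := by rw [hl2, Real.exp_log hl10]
      rw [h11, inv_eq_one_div]
    refine h1.trans ?_
    calc C₂ * Rd * ∑ P ∈ Q₃, 1 / (Ideal.absNorm P : ℝ) ≤ C₂ * Rd * (1 / l1) :=
          mul_le_mul_of_nonneg_left h7 (by positivity)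
      _ = _ := by ring
  have hb4 : (BS.card : ℝ) ≤ C₄ * (Rd / l1) := by
    have h1 : (BS.card : ℝ) ≤ ∑ σ : K →ₐ[ℚ] ℂ,
        ((T.filter (fun h => ‖σ (th α h : 𝓞 K)‖ ≤ ρ)).card : ℝ) := by
      exact_mod_cast Finset.card_biUnion_le
    have h2 : ∀ σ : K →ₐ[ℚ] ℂ, ((T.filter (fun h => ‖σ (th α h : 𝓞 K)‖ ≤ ρ)).card : ℝ) ≤
        (2 / δ + 1) * 3 ^ dn * (Rd / l1) := by
      intro σ
      have h3 := emb_slab α σ δ hδ (hδ2 σ) (fun _ => -(R:ℤ)) (2 * R + 1) 0 1 one_pos ρ hρ0.le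
        (T.filter (fun h => ‖σ (th α h : 𝓞 K)‖ ≤ ρ)) (by
          intro w hw
          rw [mem_filter] at hw
          rw [mem_Box]
          intro i
          have := hTR w hw.1 i
          rw [abs_le] at this
          push_cast
          omega) (by
          intro w hw
          rw [mem_filter] at hw
          simpa using hw.2)
      refine h3.trans ?_
      have h4 : 2 * ρ / (((1:ℕ):ℝ) * δ) + 1 ≤ (2 / δ + 1) * ρ := by
        have : 2 * ρ / (((1:ℕ):ℝ) * δ) = 2 / δ * ρ := by rw [Nat.cast_one, one_mul]; ring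
        rw [this]
        nlinarith only [hρ1]
      have h5 : (((2 * R + 1 : ℕ) : ℝ)) ^ (dn - 1) ≤ 3 ^ dn * Rr ^ (dn - 1) := by
        have h6 : (((2 * R + 1 : ℕ) : ℝ)) ≤ 3 * Rr := by push_cast; linarith
        calc (((2 * R + 1 : ℕ) : ℝ)) ^ (dn - 1) ≤ (3 * Rr) ^ (dn - 1) :=
              pow_le_pow_left₀ (Nat.cast_nonneg _) h6 _
          _ = 3 ^ (dn - 1) * Rr ^ (dn - 1) := mul_pow _ _ _
          _ ≤ 3 ^ dn * Rr ^ (dn - 1) := by
              apply mul_le_mul_of_nonneg_right _ (by positivity)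
              exact pow_le_pow_right₀ (by norm_num) (Nat.sub_le _ _)
      have h7 : ρ * Rr ^ (dn - 1) ≤ Rd / l1 := by
        have h8 : Rd = Rr ^ (dn - 1) * (ρ * ρ) := by
          rw [hρρ, hRd, ← pow_succ]
          congr 1
          omega
        rw [h8, le_div_iff₀ hl10]
        calc ρ * Rr ^ (dn - 1) * l1 ≤ ρ * Rr ^ (dn - 1) * ρ :=
              mul_le_mul_of_nonneg_left hρl1 (by positivity)
          _ = _ := by ring
      calc (2 * ρ / (((1:ℕ):ℝ) * δ) + 1) * (((2 * R + 1 : ℕ) : ℝ)) ^ (dn - 1)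
          ≤ ((2 / δ + 1) * ρ) * (3 ^ dn * Rr ^ (dn - 1)) :=
            mul_le_mul h4 h5 (by positivity) (by positivity)
        _ = (2 / δ + 1) * 3 ^ dn * (ρ * Rr ^ (dn - 1)) := by ring
        _ ≤ _ := mul_le_mul_of_nonneg_left h7 (by positivity)
    refine h1.trans ((Finset.sum_le_sum (fun σ _ => h2 σ)).trans ?_)
    rw [Finset.sum_const, nsmul_eq_mul, Finset.card_univ, card_emb, hfin, hC₄]
    apply le_of_eq
    ring
  have htot : (1 + CE + C₂ * (2 * d) + C₂ * d + C₂ + C₄) * (Rd / l1) =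
      (Rd / l1) + CE * (Rd / l1) + C₂ * (2 * d) * (Rd / l1) + C₂ * d * (Rd / l1) +
      C₂ * (Rd / l1) + C₄ * (Rd / l1) := by ring
  rw [htot]
  linarith

end Pool.Agent.H525.ISO
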